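import Mathlib
import Pool.Agent.R439.PLoc

set_option autoImplicit false

/-!
Sums over `0 < r < p` of `f(r)/r^k` and the bijection `r ↦ (s(r) p - r) / N`.
-/

namespace Pool.Agent.T2H53.HB

open Finset Pool.Agent.R439.PL

variable {p : ℕ} [hp : Fact p.Prime]

/-- the residue in `{1, ..., N}` of `p r` modulo `N` -/
def sN (p N r : ℕ) : ℕ := (p * r + (N - 1)) % N + 1

/-- the sum of `f(r)/r^k` over `0 < r < p` -/
def A (p k : ℕ) (f : ℕ → ℚ) : ℚ := ∑ r ∈ Ico 1 p, f r / (r : ℚ) ^ k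

/-- power sums of the inverses -/
def HH (p k : ℕ) : ℚ := ∑ r ∈ Ico 1 p, 1 / (r : ℚ) ^ k

omit hp in
theorem sN_pos (N r : ℕ) : 1 ≤ sN p N r := Nat.succ_le_succ (Nat.zero_le _)

omit hp in
theorem sN_le {N : ℕ} (hN : 0 < N) (r : ℕ) : sN p N r ≤ N := Nat.mod_lt _ hN

omit hp in
theorem sN_mod {N : ℕ} (hN : 0 < N) (r : ℕ) : (N : ℤ) ∣ (sN p N r : ℤ) - p * r := by
  have h := Nat.mod_add_div (p * r + (N - 1)) N
  refine ⟨1 - ((p * r + (N - 1)) / N : ℕ), ?_⟩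
  have h2 : (((p * r + (N - 1)) % N : ℕ) : ℤ) + N * ((p * r + (N - 1)) / N : ℕ) =
      p * r + (N - 1) := by
    have : ((p * r + (N - 1) : ℕ) : ℤ) = p * r + (N - 1) := by
      push_cast
      rw [Nat.cast_sub (by omega)]
      push_cast; ring
    rw [← this]
    exact_mod_cast h
  unfold sN
  push_cast at h2 ⊢
  linarith

omit hp in
/-- uniqueness of the residue -/
theorem sN_unique {N a r : ℕ} (hN : 0 < N) (h1 : 1 ≤ a) (h2 : a ≤ N) (h : (N : ℤ) ∣ (a : ℤ) - p * r) :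
    a = sN p N r := by
  have h3 := (h.sub (sN_mod (p := p) hN r))
  have h4 : (a : ℤ) - p * r - ((sN p N r : ℤ) - p * r) = (a : ℤ) - sN p N r := by ring
  rw [h4] at h3
  have h5 := sN_pos (p := p) N r
  have h6 := sN_le (p := p) hN r
  obtain ⟨c, hc⟩ := h3
  have h7 : c = 0 := by
    have e1 : (a : ℤ) - sN p N r < N := by omega
    have e2 : -(N : ℤ) < (a : ℤ) - sN p N r := by omega
    rw [hc] at e1 e2
    have hN' : (0 : ℤ) < N := by exact_mod_cast hN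
    have e3 : c < 1 := by nlinarith
    have e4 : -1 < c := by nlinarith
    omega
  rw [h7, mul_zero] at hc
  omega

omit hp in
theorem sN_refl {N r : ℕ} (hN : 0 < N) (hpN : (N : ℤ) ∣ (p : ℤ) * p - 1) (hr : r ≤ p) :
    sN p N (p - r) = N + 1 - sN p N r := by
  symm
  have h5 := sN_pos (p := p) N r
  have h6 := sN_le (p := p) hN r
  apply sN_unique hN (by omega) (by omega)
  obtain ⟨a, ha⟩ := sN_mod (p := p) hN r
  obtain ⟨b, hb⟩ := hpN
  refine ⟨1 - a - b, ?_⟩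
  rw [Nat.cast_sub (by omega), Nat.cast_sub hr]
  push_cast
  linear_combination (-1) * ha - hb

theorem sum_bij {N : ℕ} (hN : 0 < N) (hpN : (N : ℤ) ∣ (p : ℤ) * p - 1) (g : ℕ → ℚ) :
    ∑ r ∈ Ico 1 p, g (sN p N r * p - r) = ∑ j ∈ Ico 1 p, g (N * j) := by
  have hdvd : ∀ r ∈ Ico 1 p, N ∣ sN p N r * p - r := by
    intro r hr
    rw [mem_Ico] at hr
    have h5 := sN_pos (p := p) N r
    have hle : r ≤ sN p N r * p := by nlinarith
    obtain ⟨a, ha⟩ := sN_mod (p := p) hN r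
    obtain ⟨b, hb⟩ := hpN
    have : (N : ℤ) ∣ ((sN p N r * p - r : ℕ) : ℤ) := by
      rw [Nat.cast_sub hle]
      refine ⟨a * p + b * r, ?_⟩
      push_cast
      linear_combination (p : ℤ) * ha + (r : ℤ) * hb
    exact_mod_cast this
  obtain ⟨φ, hφ⟩ : ∃ φ : ℕ → ℕ, ∀ r, φ r = (sN p N r * p - r) / N := ⟨_, fun _ => rfl⟩
  have hφ1 : ∀ r ∈ Ico 1 p, N * φ r = sN p N r * p - r := fun r hr => by
    rw [hφ]; exact Nat.mul_div_cancel' (hdvd r hr)
  have hinj : Set.InjOn φ (Ico 1 p : Finset ℕ) := by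
    intro r hr r' hr' h
    have e1 := hφ1 r hr
    have e2 := hφ1 r' hr'
    rw [h] at e1
    rw [coe_Ico, Set.mem_Ico] at hr hr'
    have h5 := sN_pos (p := p) N r
    have h6 := sN_pos (p := p) N r'
    have hle : r ≤ sN p N r * p := by nlinarith
    have hle' : r' ≤ sN p N r' * p := by nlinarith
    have e3 : ((sN p N r : ℤ) * p - r) = (sN p N r' : ℤ) * p - r' := by
      have : ((sN p N r * p - r : ℕ) : ℤ) = ((sN p N r' * p - r' : ℕ) : ℤ) := by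
        rw [← e1, ← e2]
      rw [Nat.cast_sub hle, Nat.cast_sub hle'] at this
      exact_mod_cast this
    have e4 : (r : ℤ) - r' = ((sN p N r : ℤ) - sN p N r') * p := by linear_combination (-1) * e3
    have e5 : ((sN p N r : ℤ) - sN p N r') = 0 := by
      have q1 : (r : ℤ) - r' < p := by omega
      have q2 : -(p : ℤ) < (r : ℤ) - r' := by omega
      rw [e4] at q1 q2
      have hp0 : (0 : ℤ) < p := by omega
      have e3 : ((sN p N r : ℤ) - sN p N r') < 1 := by nlinarith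
      have e4 : -1 < ((sN p N r : ℤ) - sN p N r') := by nlinarith
      omega
    rw [e5, zero_mul] at e4
    omega
  have hmaps : (Ico 1 p).image φ ⊆ Ico 1 p := by
    intro j hj
    rw [mem_image] at hj
    obtain ⟨r, hr, rfl⟩ := hj
    have e1 := hφ1 r hr
    rw [mem_Ico] at hr ⊢
    have h5 := sN_pos (p := p) N r
    have h6 := sN_le (p := p) hN r
    have hlt : r < sN p N r * p := by nlinarith
    constructor
    · by_contra hc
      have : φ r = 0 := by omega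
      rw [this, mul_zero] at e1
      omega
    · by_contra hc
      have h7 : N * p ≤ N * φ r := Nat.mul_le_mul_left _ (by omega)
      have h8 : sN p N r * p ≤ N * p := Nat.mul_le_mul_right _ h6
      omega
  have himg : (Ico 1 p).image φ = Ico 1 p :=
    eq_of_subset_of_card_le hmaps (by rw [card_image_of_injOn hinj])
  calc ∑ r ∈ Ico 1 p, g (sN p N r * p - r) = ∑ r ∈ Ico 1 p, g (N * φ r) :=
        sum_congr rfl fun r hr => by rw [hφ1 r hr]
    _ = ∑ j ∈ (Ico 1 p).image φ, g (N * j) := (sum_image (f := fun j => g (N * j)) hinj).symm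
    _ = _ := by rw [himg]

theorem sum_flip (g : ℕ → ℚ) : ∑ r ∈ Ico 1 p, g (p - r) = ∑ j ∈ Ico 1 p, g j := by
  have h := sum_bij (p := p) (N := 1) one_pos (one_dvd _) g
  have e : ∀ r, sN p 1 r = 1 := fun r => by
    have h1 := sN_pos (p := p) 1 r
    have h2 := sN_le (p := p) one_pos r
    omega
  simpa only [e, one_mul, Nat.cast_one] using h

/-! ### units -/

theorem U_nat {k : ℕ} (h0 : 0 < k) (hk : k < p) : U p (k : ℚ) := by
  have : ¬ (p : ℤ) ∣ (k : ℤ) := by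
    intro h
    have := Nat.le_of_dvd h0 (Int.natCast_dvd_natCast.1 h)
    omega
  exact_mod_cast U_int this

theorem U_nat' {k : ℕ} (h : ¬ p ∣ k) : U p (k : ℚ) := by
  have : ¬ (p : ℤ) ∣ (k : ℤ) := fun h' => h (Int.natCast_dvd_natCast.1 h')
  exact_mod_cast U_int this

theorem U_sub {s r : ℕ} (hr : r ∈ Ico 1 p) : U p ((s : ℚ) * p - r) := by
  rw [mem_Ico] at hr
  have : ¬ (p : ℤ) ∣ (s : ℤ) * p - r := by
    intro h
    have h2 : (p : ℤ) ∣ r := by
      have := (Dvd.intro_left (s : ℤ) rfl : (p : ℤ) ∣ (s : ℤ) * p).sub h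
      rwa [sub_sub_cancel] at this
    have := Nat.le_of_dvd (by omega) (Int.natCast_dvd_natCast.1 h2)
    omega
  exact_mod_cast U_int this

theorem U_r {r : ℕ} (hr : r ∈ Ico 1 p) : U p (r : ℚ) := by
  rw [mem_Ico] at hr
  exact U_nat (by omega) hr.2

theorem mem_div {x y : ℚ} (hx : x ∈ Zp p) (hy : U p y) : x / y ∈ Zp p := by
  rw [div_eq_mul_inv]; exact mul_mem hx hy.2.2

theorem A_mem {k : ℕ} {f : ℕ → ℚ} (hf : ∀ r ∈ Ico 1 p, f r ∈ Zp p) : A p k f ∈ Zp p :=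
  sum_mem fun r hr => mem_div (hf r hr) ((U_r hr).pow k)

theorem HH_mem (k : ℕ) : HH p k ∈ Zp p :=
  sum_mem fun r hr => mem_div (one_mem _) ((U_r hr).pow k)

/-! ### expansions -/

theorem ex2 {s r : ℕ} (hr : r ∈ Ico 1 p) : I p 4 (1 / ((s : ℚ) * p - r) ^ 2 -
    (1 / (r : ℚ) ^ 2 + 2 * p * (s / (r : ℚ) ^ 3) + 3 * p ^ 2 * (s ^ 2 / (r : ℚ) ^ 4) +
      4 * p ^ 3 * (s ^ 3 / (r : ℚ) ^ 5))) := by
  have h1 := U_r hr
  have h2 := U_sub (s := s) hr
  refine ⟨s ^ 4 * (5 - 4 * (s * (p / r))) / (r ^ 4 * ((s : ℚ) * p - r) ^ 2), ?_, ?_⟩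
  · refine mem_div (mul_mem (pow_mem (nat_mem s) _) (sub_mem ?_ (mul_mem ?_ (mul_mem (nat_mem s)
      (mem_div p_mem h1))))) ((h1.pow 4).mul (h2.pow 2))
    · exact_mod_cast nat_mem (p := p) 5
    · exact_mod_cast nat_mem (p := p) 4
  · have h3 := h1.1
    have h4 := h2.1
    field_simp
    ring

theorem ex4 {s r : ℕ} (hr : r ∈ Ico 1 p) : I p 2 (1 / ((s : ℚ) * p - r) ^ 4 -
    (1 / (r : ℚ) ^ 4 + 4 * p * (s / (r : ℚ) ^ 5))) := by
  have h1 := U_r hr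
  have h2 := U_sub (s := s) hr
  refine ⟨s ^ 2 * (10 - 20 * (s * (p / r)) + 15 * (s * (p / r)) ^ 2 - 4 * (s * (p / r)) ^ 3) /
    (r ^ 2 * ((s : ℚ) * p - r) ^ 4), ?_, ?_⟩
  · have h5 : (s : ℚ) * (p / r) ∈ Zp p := mul_mem (nat_mem s) (mem_div p_mem h1)
    refine mem_div (mul_mem (pow_mem (nat_mem s) _) (sub_mem (add_mem (sub_mem ?_ (mul_mem ?_ h5))
      (mul_mem ?_ (pow_mem h5 _))) (mul_mem ?_ (pow_mem h5 _)))) ((h1.pow 2).mul (h2.pow 4))
    · exact_mod_cast nat_mem (p := p) 10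
    · exact_mod_cast nat_mem (p := p) 20
    · exact_mod_cast nat_mem (p := p) 15
    · exact_mod_cast nat_mem (p := p) 4
  · have h3 := h1.1
    have h4 := h2.1
    field_simp
    ring

theorem ex1 {r : ℕ} (hr : r ∈ Ico 1 p) : I p 5 (1 / ((p : ℚ) - r) + 1 / (r : ℚ) +
    p * (1 / (r : ℚ) ^ 2) + p ^ 2 * (1 / (r : ℚ) ^ 3) + p ^ 3 * (1 / (r : ℚ) ^ 4) +
      p ^ 4 * (1 / (r : ℚ) ^ 5)) := by
  have h1 := U_r hr
  have h2 := U_sub (s := 1) hr
  rw [Nat.cast_one, one_mul] at h2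
  refine ⟨1 / (r ^ 5 * ((p : ℚ) - r)), mem_div (one_mem _) ((h1.pow 5).mul h2), ?_⟩
  have h3 := h1.1
  have h4 := h2.1
  field_simp
  ring

theorem ex3 {r : ℕ} (hr : r ∈ Ico 1 p) : I p 3 (1 / ((p : ℚ) - r) ^ 3 + 1 / (r : ℚ) ^ 3 +
    3 * p * (1 / (r : ℚ) ^ 4) + 6 * p ^ 2 * (1 / (r : ℚ) ^ 5)) := by
  have h1 := U_r hr
  have h2 := U_sub (s := 1) hr
  rw [Nat.cast_one, one_mul] at h2
  refine ⟨(10 - 15 * (p / r) + 6 * (p / r) ^ 2) / (r ^ 3 * ((p : ℚ) - r) ^ 3), ?_, ?_⟩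
  · have h5 : (p : ℚ) / r ∈ Zp p := mem_div p_mem h1
    refine mem_div (add_mem (sub_mem ?_ (mul_mem ?_ h5)) (mul_mem ?_ (pow_mem h5 _)))
      ((h1.pow 3).mul (h2.pow 3))
    · exact_mod_cast nat_mem (p := p) 10
    · exact_mod_cast nat_mem (p := p) 15
    · exact_mod_cast nat_mem (p := p) 6
  · have h3 := h1.1
    have h4 := h2.1
    field_simp
    ring

theorem ex5 {r : ℕ} (hr : r ∈ Ico 1 p) : I p 1 (1 / ((p : ℚ) - r) ^ 5 + 1 / (r : ℚ) ^ 5) := by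
  have h1 := U_r hr
  have h2 := U_sub (s := 1) hr
  rw [Nat.cast_one, one_mul] at h2
  refine ⟨((p : ℚ) ^ 4 - 5 * p ^ 3 * r + 10 * p ^ 2 * r ^ 2 - 10 * p * r ^ 3 + 5 * r ^ 4) /
    (r ^ 5 * ((p : ℚ) - r) ^ 5), ?_, ?_⟩
  · have hr' := nat_mem (p := p) r
    have hpp := p_mem (p := p)
    have h5 : (5 : ℚ) ∈ Zp p := by exact_mod_cast nat_mem (p := p) 5
    have h10 : (10 : ℚ) ∈ Zp p := by exact_mod_cast nat_mem (p := p) 10
    refine mem_div (add_mem (sub_mem (add_mem (sub_mem (pow_mem hpp _) (mul_mem (mul_mem h5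
      (pow_mem hpp _)) hr')) (mul_mem (mul_mem h10 (pow_mem hpp _)) (pow_mem hr' _)))
      (mul_mem (mul_mem h10 hpp) (pow_mem hr' _))) (mul_mem h5 (pow_mem hr' _)))
      ((h1.pow 5).mul (h2.pow 5))
  · have h3 := h1.1
    have h4 := h2.1
    field_simp
    ring

end Pool.Agent.T2H53.HB
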