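import Pool.Agent.T2H53.HB.A1

set_option autoImplicit false

/-!
Relations between the sums `A p k f` modulo powers of `p`.
-/

namespace Pool.Agent.T2H53.HB

open Finset Pool.Agent.R439.PL

variable {p : ℕ} [hp : Fact p.Prime]

/-- the centred residue -/
def w (p N r : ℕ) : ℚ := (sN p N r : ℚ) - ((N : ℚ) + 1) / 2

theorem num_mem (n : ℕ) [n.AtLeastTwo] : (OfNat.ofNat n : ℚ) ∈ Zp p := by
  exact_mod_cast nat_mem (p := p) n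

theorem U2 (h3 : 3 < p) : U p (2 : ℚ) := by exact_mod_cast U_nat (p := p) (k := 2) (by omega) (by omega)
theorem U3 (h3 : 3 < p) : U p (3 : ℚ) := by exact_mod_cast U_nat (p := p) (k := 3) (by omega) (by omega)

theorem w_mem (h3 : 3 < p) (N r : ℕ) : w p N r ∈ Zp p :=
  sub_mem (nat_mem _) (mem_div (by exact_mod_cast nat_mem (p := p) (N + 1)) (U2 h3))

omit hp in
theorem w_flip {N r : ℕ} (hN : 0 < N) (hpN : (N : ℤ) ∣ (p : ℤ) * p - 1) (hr : r ≤ p) :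
    w p N (p - r) = - w p N r := by
  unfold w
  rw [sN_refl hN hpN hr]
  have h6 := sN_le (p := p) hN r
  rw [Nat.cast_sub (by omega)]
  push_cast
  ring

omit hp in
theorem cast_s {N r : ℕ} (hr : r ∈ Ico 1 p) : ((sN p N r * p - r : ℕ) : ℚ) = (sN p N r : ℚ) * p - r := by
  rw [mem_Ico] at hr
  have h5 := sN_pos (p := p) N r
  have hle : r ≤ sN p N r * p := by nlinarith
  rw [Nat.cast_sub hle]
  push_cast
  ring

/-- the relation between the sums of `s/r^3`, `s^2/r^4`, `s^3/r^5` -/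
theorem RN {N : ℕ} (hN : 0 < N) (hpN : (N : ℤ) ∣ (p : ℤ) * p - 1) :
    I p 4 (2 * p * A p 3 (fun r => (sN p N r : ℚ)) + 3 * p ^ 2 * A p 4 (fun r => (sN p N r : ℚ) ^ 2) +
      4 * p ^ 3 * A p 5 (fun r => (sN p N r : ℚ) ^ 3) + (1 - 1 / (N : ℚ) ^ 2) * HH p 2) := by
  have h1 := sum_bij hN hpN (fun n => 1 / (n : ℚ) ^ 2)
  have h2 : ∑ j ∈ Ico 1 p, 1 / ((N * j : ℕ) : ℚ) ^ 2 = 1 / (N : ℚ) ^ 2 * HH p 2 := by
    rw [HH, mul_sum]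
    refine sum_congr rfl fun j _ => ?_
    push_cast
    rw [mul_pow, one_div_mul_one_div]
  rw [h2] at h1
  have h3 : I p 4 (∑ r ∈ Ico 1 p, (1 / ((sN p N r : ℚ) * p - r) ^ 2 -
    (1 / (r : ℚ) ^ 2 + 2 * p * (sN p N r / (r : ℚ) ^ 3) + 3 * p ^ 2 * (sN p N r ^ 2 / (r : ℚ) ^ 4) +
      4 * p ^ 3 * (sN p N r ^ 3 / (r : ℚ) ^ 5)))) := I.sum fun r hr => ex2 hr
  rw [sum_sub_distrib, sum_add_distrib, sum_add_distrib, sum_add_distrib, ← mul_sum, ← mul_sum,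
    ← mul_sum] at h3
  have h4 : ∑ r ∈ Ico 1 p, 1 / ((sN p N r : ℚ) * p - r) ^ 2 = 1 / (N : ℚ) ^ 2 * HH p 2 := by
    rw [← h1]
    exact sum_congr rfl fun r hr => by rw [cast_s hr]
  rw [h4] at h3
  have h5 := h3.neg
  unfold A
  have e : HH p 2 = ∑ r ∈ Ico 1 p, 1 / (r : ℚ) ^ 2 := rfl
  rw [← e] at h5
  refine (congrArg (I p 4) ?_).mp h5
  ring

theorem VN {N : ℕ} (hN : 0 < N) (hpN : (N : ℤ) ∣ (p : ℤ) * p - 1) :
    I p 2 (4 * p * A p 5 (fun r => (sN p N r : ℚ)) + (1 - 1 / (N : ℚ) ^ 4) * HH p 4) := by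
  have h1 := sum_bij hN hpN (fun n => 1 / (n : ℚ) ^ 4)
  have h2 : ∑ j ∈ Ico 1 p, 1 / ((N * j : ℕ) : ℚ) ^ 4 = 1 / (N : ℚ) ^ 4 * HH p 4 := by
    rw [HH, mul_sum]
    refine sum_congr rfl fun j _ => ?_
    push_cast
    rw [mul_pow, one_div_mul_one_div]
  rw [h2] at h1
  have h3 : I p 2 (∑ r ∈ Ico 1 p, (1 / ((sN p N r : ℚ) * p - r) ^ 4 -
    (1 / (r : ℚ) ^ 4 + 4 * p * (sN p N r / (r : ℚ) ^ 5)))) := I.sum fun r hr => ex4 hr
  rw [sum_sub_distrib, sum_add_distrib, ← mul_sum] at h3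
  have h4 : ∑ r ∈ Ico 1 p, 1 / ((sN p N r : ℚ) * p - r) ^ 4 = 1 / (N : ℚ) ^ 4 * HH p 4 := by
    rw [← h1]
    exact sum_congr rfl fun r hr => by rw [cast_s hr]
  rw [h4] at h3
  have h5 := h3.neg
  unfold A
  have e : HH p 4 = ∑ r ∈ Ico 1 p, 1 / (r : ℚ) ^ 4 := rfl
  rw [← e] at h5
  refine (congrArg (I p 2) ?_).mp h5
  ring

/-! ### reflection -/

omit hp in
theorem cast_f {r : ℕ} (hr : r ∈ Ico 1 p) : ((p - r : ℕ) : ℚ) = (p : ℚ) - r := by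
  rw [mem_Ico] at hr
  rw [Nat.cast_sub (by omega)]

theorem A_flip {k : ℕ} {f g : ℕ → ℚ} (h : ∀ r ∈ Ico 1 p, f (p - r) = g r) :
    A p k f = ∑ r ∈ Ico 1 p, g r * (1 / ((p : ℚ) - r) ^ k) := by
  unfold A
  rw [← sum_flip (fun r => f r / (r : ℚ) ^ k)]
  refine sum_congr rfl fun r hr => ?_
  rw [h r hr, cast_f hr]
  ring

theorem H5_I (h3 : 3 < p) : I p 1 (HH p 5) := by
  have h1 : HH p 5 = ∑ r ∈ Ico 1 p, 1 * (1 / ((p : ℚ) - r) ^ 5) :=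
    A_flip (f := fun _ => 1) (g := fun _ => 1) (fun _ _ => rfl)
  have h2 : I p 1 (∑ r ∈ Ico 1 p, (1 / ((p : ℚ) - r) ^ 5 + 1 / (r : ℚ) ^ 5)) :=
    I.sum fun r hr => ex5 hr
  rw [sum_add_distrib] at h2
  refine (U2 h3).cancel ((congrArg (I p 1) ?_).mp h2)
  simp only [one_mul] at h1
  rw [← h1]
  unfold HH
  ring

theorem H3_I (h3 : 3 < p) : I p 3 (2 * HH p 3 + 3 * (p * HH p 4)) := by
  have h1 : HH p 3 = ∑ r ∈ Ico 1 p, 1 * (1 / ((p : ℚ) - r) ^ 3) :=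
    A_flip (f := fun _ => 1) (g := fun _ => 1) (fun _ _ => rfl)
  simp only [one_mul] at h1
  have h2 : I p 3 (∑ r ∈ Ico 1 p, (1 / ((p : ℚ) - r) ^ 3 + 1 / (r : ℚ) ^ 3 +
    3 * p * (1 / (r : ℚ) ^ 4) + 6 * p ^ 2 * (1 / (r : ℚ) ^ 5))) := I.sum fun r hr => ex3 hr
  rw [sum_add_distrib, sum_add_distrib, sum_add_distrib, ← mul_sum, ← mul_sum, ← h1] at h2
  have h4 : I p 3 ((p : ℚ) ^ 2 * HH p 5) := by
    have := ((I_p (p := p)).mul (I_p (p := p))).mul (H5_I h3)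
    refine (congrArg (I p 3) ?_).mp this
    ring
  have h5 := h2.sub (h4.mulL (num_mem 6))
  refine (congrArg (I p 3) ?_).mp h5
  unfold HH
  ring

theorem H1_I (h3 : 3 < p) : I p 5 (2 * HH p 1 + p * HH p 2 + p ^ 2 * HH p 3 + p ^ 3 * HH p 4) := by
  have h1 : HH p 1 = ∑ r ∈ Ico 1 p, 1 * (1 / ((p : ℚ) - r) ^ 1) :=
    A_flip (f := fun _ => 1) (g := fun _ => 1) (fun _ _ => rfl)
  simp only [one_mul, pow_one] at h1
  have h2 : I p 5 (∑ r ∈ Ico 1 p, (1 / ((p : ℚ) - r) + 1 / (r : ℚ) +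
    p * (1 / (r : ℚ) ^ 2) + p ^ 2 * (1 / (r : ℚ) ^ 3) + p ^ 3 * (1 / (r : ℚ) ^ 4) +
      p ^ 4 * (1 / (r : ℚ) ^ 5))) := I.sum fun r hr => ex1 hr
  rw [sum_add_distrib, sum_add_distrib, sum_add_distrib, sum_add_distrib, sum_add_distrib,
    ← mul_sum, ← mul_sum, ← mul_sum, ← mul_sum, ← h1] at h2
  have h4 : I p 5 ((p : ℚ) ^ 4 * HH p 5) := by
    have := (((I_p (p := p)).mul (I_p (p := p))).mul ((I_p (p := p)).mul (I_p (p := p)))).mul (H5_I h3)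
    refine (congrArg (I p 5) ?_).mp this
    ring
  have h5 := h2.sub h4
  refine (congrArg (I p 5) ?_).mp h5
  unfold HH
  simp only [pow_one]
  ring

theorem a4_I {N : ℕ} (h3 : 3 < p) (hN : 0 < N) (hpN : (N : ℤ) ∣ (p : ℤ) * p - 1) :
    I p 2 (A p 4 (w p N) + 2 * (p * A p 5 (w p N))) := by
  have h1 := A_flip (k := 4) (f := w p N) (g := fun r => - w p N r) (fun r hr => by
    rw [mem_Ico] at hr
    exact w_flip hN hpN (by omega))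
  have h2 : I p 2 (∑ r ∈ Ico 1 p, w p N r * (1 / ((p : ℚ) - r) ^ 4 -
    (1 / (r : ℚ) ^ 4 + 4 * p * (1 / (r : ℚ) ^ 5)))) := I.sum fun r hr => by
      have := (ex4 (s := 1) hr).mulL (w_mem h3 N r)
      simpa only [Nat.cast_one, one_mul] using this
  have h4 : ∑ r ∈ Ico 1 p, w p N r * (1 / ((p : ℚ) - r) ^ 4 -
    (1 / (r : ℚ) ^ 4 + 4 * p * (1 / (r : ℚ) ^ 5))) =
      - A p 4 (w p N) - A p 4 (w p N) - 4 * p * A p 5 (w p N) := by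
    nth_rewrite 1 [h1]
    unfold A
    rw [mul_sum, ← sum_neg_distrib, ← sum_sub_distrib, ← sum_sub_distrib]
    exact sum_congr rfl fun r _ => by ring
  rw [h4] at h2
  refine (U2 h3).cancel ((congrArg (I p 2) ?_).mp h2.neg)
  ring

theorem a52_I {N : ℕ} (h3 : 3 < p) (hN : 0 < N) (hpN : (N : ℤ) ∣ (p : ℤ) * p - 1) :
    I p 1 (A p 5 (fun r => w p N r ^ 2)) := by
  have h1 := A_flip (k := 5) (f := fun r => w p N r ^ 2) (g := fun r => w p N r ^ 2) (fun r hr => by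
    rw [mem_Ico] at hr
    rw [w_flip hN hpN (by omega)]
    ring)
  have h2 : I p 1 (∑ r ∈ Ico 1 p, w p N r ^ 2 * (1 / ((p : ℚ) - r) ^ 5 + 1 / (r : ℚ) ^ 5)) :=
    I.sum fun r hr => (ex5 hr).mulL (pow_mem (w_mem h3 N r) 2)
  have h4 : ∑ r ∈ Ico 1 p, w p N r ^ 2 * (1 / ((p : ℚ) - r) ^ 5 + 1 / (r : ℚ) ^ 5) =
      2 * A p 5 (fun r => w p N r ^ 2) := by
    rw [two_mul]
    nth_rewrite 1 [h1]
    unfold A
    rw [← sum_add_distrib]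
    exact sum_congr rfl fun r _ => by ring
  rw [h4] at h2
  exact (U2 h3).cancel h2

/-! ### the quantity `Q` -/

/-- `α F0 + β F1 + γ F2` -/
def Qf (p N r : ℕ) : ℚ :=
  1 / (r : ℚ) ^ 3 * w p N r +
  (- (3 * p * (1 / (r : ℚ) ^ 4)) - p ^ 2 * (1 / (r : ℚ) ^ 5)) *
    (- (w p N r ^ 2) / 2 - w p N r / 2 + ((N : ℚ) ^ 2 - 1) / 24) +
  5 * p ^ 2 * (1 / (r : ℚ) ^ 5) * ((2 * w p N r ^ 3 + 3 * w p N r ^ 2 +
    (1 - ((N : ℚ) ^ 2 - 1) / 2) * w p N r - ((N : ℚ) ^ 2 - 1) / 4) / 6)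

/-- the sum of `Qf` -/
def Q (p N : ℕ) : ℚ := ∑ r ∈ Ico 1 p, Qf p N r

omit hp in
theorem Q_lin (N : ℕ) : Q p N = A p 3 (w p N) -
    3 * p * (- A p 4 (fun r => w p N r ^ 2) / 2 - A p 4 (w p N) / 2 + ((N : ℚ) ^ 2 - 1) / 24 * HH p 4) -
    p ^ 2 * (- A p 5 (fun r => w p N r ^ 2) / 2 - A p 5 (w p N) / 2 + ((N : ℚ) ^ 2 - 1) / 24 * HH p 5) +
    5 * p ^ 2 * ((2 * A p 5 (fun r => w p N r ^ 3) + 3 * A p 5 (fun r => w p N r ^ 2) +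
    (1 - ((N : ℚ) ^ 2 - 1) / 2) * A p 5 (w p N) - ((N : ℚ) ^ 2 - 1) / 4 * HH p 5) / 6) := by
  unfold Q Qf A HH
  simp only [mul_sum, sum_div, ← sum_neg_distrib, ← sum_sub_distrib, ← sum_add_distrib]
  exact sum_congr rfl fun r _ => by ring

omit hp in
theorem s_lin (N : ℕ) :
    A p 3 (fun r => (sN p N r : ℚ)) = A p 3 (w p N) + ((N : ℚ) + 1) / 2 * HH p 3 ∧
    A p 4 (fun r => (sN p N r : ℚ) ^ 2) = A p 4 (fun r => w p N r ^ 2) +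
      2 * (((N : ℚ) + 1) / 2) * A p 4 (w p N) + (((N : ℚ) + 1) / 2) ^ 2 * HH p 4 ∧
    A p 5 (fun r => (sN p N r : ℚ) ^ 3) = A p 5 (fun r => w p N r ^ 3) +
      3 * (((N : ℚ) + 1) / 2) * A p 5 (fun r => w p N r ^ 2) +
      3 * (((N : ℚ) + 1) / 2) ^ 2 * A p 5 (w p N) + (((N : ℚ) + 1) / 2) ^ 3 * HH p 5 ∧
    A p 5 (fun r => (sN p N r : ℚ)) = A p 5 (w p N) + ((N : ℚ) + 1) / 2 * HH p 5 := by
  unfold A HH w
  simp only [mul_sum, ← sum_add_distrib]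
  refine ⟨sum_congr rfl fun r _ => by ring, sum_congr rfl fun r _ => by ring,
    sum_congr rfl fun r _ => by ring, sum_congr rfl fun r _ => by ring⟩

theorem Q_eq {N : ℕ} (h3 : 3 < p) (hN : 0 < N) (hpN : (N : ℤ) ∣ (p : ℤ) * p - 1)
    (hNp : ((N : ℚ) + 1) / 2 ∈ Zp p) :
    I p 3 (Q p N - (- (1 - 1 / (N : ℚ) ^ 2) * (HH p 2 / (2 * p)) - ((N : ℚ) ^ 2 - 1) / 2 * (p * HH p 4) -
      ((23 / 12) * ((N : ℚ) ^ 2 - 1) + 5 / 3) * (p ^ 2 * A p 5 (w p N)) -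
      1 / 3 * (p ^ 2 * A p 5 (fun r => w p N r ^ 3)))) := by
  have hR := RN hN hpN
  obtain ⟨s1, s2, s3, s4⟩ := s_lin (p := p) N
  rw [s1, s2, s3] at hR
  rw [Q_lin]
  have k2 := a4_I h3 hN hpN
  have k3 := a52_I h3 hN hpN
  have k4 := H5_I h3
  have k5 := H3_I h3
  generalize A p 3 (w p N) = a3 at *
  generalize A p 4 (w p N) = a4 at *
  generalize A p 5 (w p N) = a5 at *
  generalize A p 4 (fun r => w p N r ^ 2) = a42 at *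
  generalize A p 5 (fun r => w p N r ^ 2) = a52 at *
  generalize A p 5 (fun r => w p N r ^ 3) = a53 at *
  generalize HH p 2 = H2 at *
  generalize HH p 3 = H3 at *
  generalize HH p 4 = H4 at *
  generalize HH p 5 = H5 at *
  obtain ⟨c, hc⟩ : ∃ c : ℚ, c = 1 - 1 / (N : ℚ) ^ 2 := ⟨_, rfl⟩
  rw [← hc] at hR ⊢
  obtain ⟨n, hn⟩ : ∃ n : ℚ, n = (N : ℚ) := ⟨_, rfl⟩
  rw [← hn] at hR hNp ⊢
  obtain ⟨h, hh⟩ : ∃ h : ℚ, h = (n + 1) / 2 := ⟨_, rfl⟩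
  have hn2 : n = 2 * h - 1 := by rw [hh]; ring
  rw [← hh] at hR hNp
  rw [hn2]
  have hp0 := p_ne (p := p)
  -- divide by 2p
  have K1 : I p 3 (a3 + h * H3 + 3 * p / 2 * (a42 + 2 * h * a4 + h ^ 2 * H4) +
      2 * p ^ 2 * (a53 + 3 * h * a52 + 3 * h ^ 2 * a5 + h ^ 3 * H5) + c * (H2 / (2 * p))) := by
    refine (U2 h3).cancel (I_p_mul_iff.1 ((congrArg (I p 4) ?_).mp hR))
    field_simp
    ring
  have hu2 := U2 h3
  have hu3 := U3 h3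
  have hu6 : U p (6 : ℚ) := by have := hu2.mul hu3; norm_num at this; exact this
  have hp1 := I_p (p := p)
  have m1 : I p 3 (p ^ 2 * a52) := (congrArg (I p 3) (by ring)).mp ((hp1.mul hp1).mul k3)
  have m2 : I p 3 (p ^ 2 * H5) := (congrArg (I p 3) (by ring)).mp ((hp1.mul hp1).mul k4)
  have m3 : I p 3 (p * (a4 + 2 * (p * a5))) := (congrArg (I p 3) (by ring)).mp (hp1.mul k2)
  -- coefficients
  have t1 : (3 / 2 - 3 * h : ℚ) ∈ Zp p :=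
    sub_mem (mem_div (num_mem 3) hu2) (mul_mem (num_mem 3) hNp)
  have t2 : (- (h / 2) : ℚ) ∈ Zp p := neg_mem (mem_div hNp hu2)
  have t3 : (3 - 6 * h : ℚ) ∈ Zp p := sub_mem (num_mem 3) (mul_mem (num_mem 6) hNp)
  have hu24 : U p (24 : ℚ) := by
    have := (hu2.mul hu2).mul hu6; norm_num at this; exact this
  have t4 : (- 2 * h ^ 3 - (((2 * h - 1) ^ 2 - 1) / 24) - 5 * ((((2 * h - 1) ^ 2 - 1) / 24)) : ℚ) ∈ Zp p := by
    have e1 : ((2 * h - 1) ^ 2 - 1) / 24 ∈ Zp p := mem_div (sub_mem (pow_mem (sub_mem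
      (mul_mem (num_mem 2) hNp) (one_mem _)) 2) (one_mem _)) hu24
    exact sub_mem (sub_mem (mul_mem (neg_mem (num_mem 2)) (pow_mem hNp 3)) e1) (mul_mem (num_mem 5) e1)
  have := (((K1.add (m1.mulL t3)).add (m2.mulL t4)).add (m3.mulL t1)).add (k5.mulL t2)
  refine (congrArg (I p 3) ?_).mp this
  ring

end Pool.Agent.T2H53.HB
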