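import Pool.Agent.T2H53.HB.A2

set_option autoImplicit false

/-!
The values of `Q` for `N = 2, 3, 4, 6`, and the Bernoulli number.
-/

namespace Pool.Agent.T2H53.HB

open Finset Pool.Agent.R439.PL

variable {p : ℕ} [hp : Fact p.Prime]

omit hp in
theorem sN_dvd {M N r : ℕ} (hN : 0 < N) (hM : 0 < M) (hNM : N ∣ M) :
    sN p N r = (sN p M r - 1) % N + 1 := by
  symm
  have h5 := sN_pos (p := p) M r
  apply sN_unique hN (by omega) (Nat.mod_lt _ hN)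
  obtain ⟨a, ha⟩ := sN_mod (p := p) hM r
  obtain ⟨b, hb⟩ := hNM
  have h2 := Nat.mod_add_div (sN p M r - 1) N
  have h3 : (((sN p M r - 1) % N : ℕ) : ℤ) + N * ((sN p M r - 1) / N : ℕ) = (sN p M r : ℤ) - 1 := by
    have : ((sN p M r - 1 : ℕ) : ℤ) = (sN p M r : ℤ) - 1 := by rw [Nat.cast_sub h5]; push_cast; ring
    rw [← this]; exact_mod_cast h2
  have hb' : (M : ℤ) = N * b := by exact_mod_cast hb
  generalize (sN p M r - 1) / N = q at *
  generalize (sN p M r - 1) % N = m at *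
  refine ⟨b * a - q, ?_⟩
  rw [hb'] at ha
  push_cast
  linear_combination h3 + ha

omit hp in
theorem w2_cube (r : ℕ) : w p 2 r ^ 3 = 1 / 4 * w p 2 r := by
  have h5 := sN_pos (p := p) 2 r
  have h6 := sN_le (p := p) (N := 2) two_pos r
  unfold w
  obtain ⟨s, hs⟩ : ∃ s, s = sN p 2 r := ⟨_, rfl⟩
  rw [← hs] at h5 h6 ⊢
  interval_cases s <;> norm_num

omit hp in
theorem w3_cube (r : ℕ) : w p 3 r ^ 3 = w p 3 r := by
  have h5 := sN_pos (p := p) 3 r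
  have h6 := sN_le (p := p) (N := 3) three_pos r
  unfold w
  obtain ⟨s, hs⟩ : ∃ s, s = sN p 3 r := ⟨_, rfl⟩
  rw [← hs] at h5 h6 ⊢
  interval_cases s <;> norm_num

omit hp in
theorem w4_cube (r : ℕ) : w p 4 r ^ 3 = 7 / 4 * w p 4 r + 3 / 2 * w p 2 r := by
  have h5 := sN_pos (p := p) 4 r
  have h6 := sN_le (p := p) (N := 4) four_pos r
  have h7 := sN_dvd (p := p) (M := 4) (N := 2) (r := r) two_pos four_pos (by norm_num)
  unfold w
  rw [h7]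
  obtain ⟨s, hs⟩ : ∃ s, s = sN p 4 r := ⟨_, rfl⟩
  rw [← hs] at h5 h6 ⊢
  interval_cases s <;> norm_num

omit hp in
theorem w6_cube (r : ℕ) : w p 6 r ^ 3 = 15 / 4 * w p 6 r + 9 / 2 * w p 2 r + 4 * w p 3 r := by
  have h5 := sN_pos (p := p) 6 r
  have h6 := sN_le (p := p) (N := 6) (by norm_num) r
  have h7 := sN_dvd (p := p) (M := 6) (N := 2) (r := r) two_pos (by norm_num) (by norm_num)
  have h8 := sN_dvd (p := p) (M := 6) (N := 3) (r := r) three_pos (by norm_num) (by norm_num)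
  unfold w
  rw [h7, h8]
  obtain ⟨s, hs⟩ : ∃ s, s = sN p 6 r := ⟨_, rfl⟩
  rw [← hs] at h5 h6 ⊢
  interval_cases s <;> norm_num

omit hp in
theorem A_w2 : A p 5 (fun r => w p 2 r ^ 3) = 1 / 4 * A p 5 (w p 2) := by
  unfold A
  rw [mul_sum]
  exact sum_congr rfl fun r _ => by beta_reduce; rw [w2_cube]; ring

omit hp in
theorem A_w3 : A p 5 (fun r => w p 3 r ^ 3) = A p 5 (w p 3) := by
  unfold A
  exact sum_congr rfl fun r _ => by beta_reduce; rw [w3_cube]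

omit hp in
theorem A_w4 : A p 5 (fun r => w p 4 r ^ 3) = 7 / 4 * A p 5 (w p 4) + 3 / 2 * A p 5 (w p 2) := by
  unfold A
  rw [mul_sum, mul_sum, ← sum_add_distrib]
  exact sum_congr rfl fun r _ => by beta_reduce; rw [w4_cube]; ring

omit hp in
theorem A_w6 : A p 5 (fun r => w p 6 r ^ 3) =
    15 / 4 * A p 5 (w p 6) + 9 / 2 * A p 5 (w p 2) + 4 * A p 5 (w p 3) := by
  unfold A
  rw [mul_sum, mul_sum, mul_sum, ← sum_add_distrib, ← sum_add_distrib]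
  exact sum_congr rfl fun r _ => by beta_reduce; rw [w6_cube]; ring

/-- rational numbers with denominators composed of 2 and 3 -/
theorem mem23 (h3 : 3 < p) {x : ℚ} (a : ℤ) (i j : ℕ) (h : x = a / (2 ^ i * 3 ^ j)) : x ∈ Zp p := by
  rw [h]
  exact mem_div (int_mem a) (((U2 h3).pow i).mul ((U3 h3).pow j))

theorem a5_I {N : ℕ} (h3 : 3 < p) (hN : 0 < N) (hpN : (N : ℤ) ∣ (p : ℤ) * p - 1)
    (hNp : ((N : ℚ) + 1) / 2 ∈ Zp p) :
    I p 3 (p ^ 2 * A p 5 (w p N) + (1 - 1 / (N : ℚ) ^ 4) / 4 * (p * HH p 4)) := by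
  have h1 := VN hN hpN
  obtain ⟨-, -, -, s4⟩ := s_lin (p := p) N
  rw [s4] at h1
  have hu2 := U2 h3
  have hu4 : U p (4 : ℚ) := by have := hu2.mul hu2; norm_num at this; exact this
  have hp1 := I_p (p := p)
  have k4 : I p 3 (p * (4 * p * (((N : ℚ) + 1) / 2 * HH p 5))) := by
    have := ((hp1.mul hp1).mul (H5_I h3)).mulL (mul_mem (num_mem 4) hNp)
    exact (congrArg (I p 3) (by ring)).mp this
  refine hu4.cancel ((congrArg (I p 3) ?_).mp ((hp1.mul h1).sub k4))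
  ring

theorem Q2_eq (h3 : 3 < p) (hpN : (2 : ℤ) ∣ (p : ℤ) * p - 1) :
    I p 3 (Q p 2 - (- (3 / 4) * (HH p 2 / (2 * p)) + 33 / 128 * (p * HH p 4))) := by
  have hNp : (((2 : ℕ) : ℚ) + 1) / 2 ∈ Zp p := mem23 h3 3 1 0 (by norm_num)
  have h1 := Q_eq (N := 2) h3 two_pos (by exact_mod_cast hpN) hNp
  have h2 := a5_I (N := 2) h3 two_pos (by exact_mod_cast hpN) hNp
  rw [A_w2] at h1
  have t : (- (15 / 2) : ℚ) ∈ Zp p := mem23 h3 (-15) 1 0 (by norm_num)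
  refine (congrArg (I p 3) ?_).mp (h1.add (h2.mulL t))
  push_cast
  ring

theorem Q3_eq (h3 : 3 < p) (hpN : (3 : ℤ) ∣ (p : ℤ) * p - 1) :
    I p 3 (Q p 3 - (- (8 / 9) * (HH p 2 / (2 * p)) + 68 / 243 * (p * HH p 4))) := by
  have hNp : (((3 : ℕ) : ℚ) + 1) / 2 ∈ Zp p := mem23 h3 2 0 0 (by norm_num)
  have h1 := Q_eq (N := 3) h3 three_pos (by exact_mod_cast hpN) hNp
  have h2 := a5_I (N := 3) h3 three_pos (by exact_mod_cast hpN) hNp
  rw [A_w3] at h1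
  have t : (- (52 / 3) : ℚ) ∈ Zp p := mem23 h3 (-52) 0 1 (by norm_num)
  refine (congrArg (I p 3) ?_).mp (h1.add (h2.mulL t))
  push_cast
  ring

theorem Q4_eq (h3 : 3 < p) (hp2 : (2 : ℤ) ∣ (p : ℤ) * p - 1) (hpN : (4 : ℤ) ∣ (p : ℤ) * p - 1) :
    I p 3 (Q p 4 - (- (15 / 16) * (HH p 2 / (2 * p)) + 345 / 1024 * (p * HH p 4))) := by
  have hNp : (((4 : ℕ) : ℚ) + 1) / 2 ∈ Zp p := mem23 h3 5 1 0 (by norm_num)
  have hNp2 : (((2 : ℕ) : ℚ) + 1) / 2 ∈ Zp p := mem23 h3 3 1 0 (by norm_num)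
  have h1 := Q_eq (N := 4) h3 four_pos (by exact_mod_cast hpN) hNp
  have h2 := a5_I (N := 4) h3 four_pos (by exact_mod_cast hpN) hNp
  have h4 := a5_I (N := 2) h3 two_pos (by exact_mod_cast hp2) hNp2
  rw [A_w4] at h1
  have t : (- 31 : ℚ) ∈ Zp p := mem23 h3 (-31) 0 0 (by norm_num)
  have t2 : (- (1 / 2) : ℚ) ∈ Zp p := mem23 h3 (-1) 1 0 (by norm_num)
  refine (congrArg (I p 3) ?_).mp ((h1.add (h2.mulL t)).add (h4.mulL t2))
  push_cast
  ring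

theorem Q6_eq (h3 : 3 < p) (hp2 : (2 : ℤ) ∣ (p : ℤ) * p - 1) (hp3 : (3 : ℤ) ∣ (p : ℤ) * p - 1)
    (hpN : (6 : ℤ) ∣ (p : ℤ) * p - 1) :
    I p 3 (Q p 6 - (- (35 / 36) * (HH p 2 / (2 * p)) + 20755 / 31104 * (p * HH p 4))) := by
  have hNp : (((6 : ℕ) : ℚ) + 1) / 2 ∈ Zp p := mem23 h3 7 1 0 (by norm_num)
  have hNp2 : (((2 : ℕ) : ℚ) + 1) / 2 ∈ Zp p := mem23 h3 3 1 0 (by norm_num)
  have hNp3 : (((3 : ℕ) : ℚ) + 1) / 2 ∈ Zp p := mem23 h3 2 0 0 (by norm_num)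
  have h1 := Q_eq (N := 6) h3 (by norm_num) (by exact_mod_cast hpN) hNp
  have h2 := a5_I (N := 6) h3 (by norm_num) (by exact_mod_cast hpN) hNp
  have h4 := a5_I (N := 2) h3 two_pos (by exact_mod_cast hp2) hNp2
  have h5 := a5_I (N := 3) h3 three_pos (by exact_mod_cast hp3) hNp3
  rw [A_w6] at h1
  have t : (- 70 : ℚ) ∈ Zp p := mem23 h3 (-70) 0 0 (by norm_num)
  have t2 : (- (3 / 2) : ℚ) ∈ Zp p := mem23 h3 (-3) 1 0 (by norm_num)
  have t3 : (- (4 / 3) : ℚ) ∈ Zp p := mem23 h3 (-4) 0 1 (by norm_num)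
  refine (congrArg (I p 3) ?_).mp (((h1.add (h2.mulL t)).add (h4.mulL t2)).add (h5.mulL t3))
  push_cast
  ring

/-- `H_{p-1}^{(2)} / (2p)` in terms of `W = H_{p-1}/p^2` -/
theorem H2_W (h3 : 3 < p) :
    I p 3 (HH p 2 / (2 * p) + HH p 1 / p ^ 2 - 1 / 4 * (p * HH p 4)) := by
  have h1 := H1_I h3
  have h2 := H3_I h3
  have hp0 := p_ne (p := p)
  have h4 : I p 3 (2 * (HH p 1 / p ^ 2) + HH p 2 / p + HH p 3 + p * HH p 4) := by
    apply I_p_mul_iff.1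
    apply I_p_mul_iff.1
    refine (congrArg (I p 5) ?_).mp h1
    field_simp
  have h5 := (h4.add (h2.mulL (x := - (1 / 2)) (mem23 h3 (-1) 1 0 (by norm_num)))).mulL (x := 1 / 2)
    (mem23 h3 1 1 0 (by norm_num))
  refine (congrArg (I p 3) ?_).mp h5
  field_simp
  ring

theorem fin4 (h3 : 3 < p) (hp2 : (2 : ℤ) ∣ (p : ℤ) * p - 1) :
    I p 3 ((- 2 * Q p 2 + p * HH p 4 / 4) - (- (3 / 2) * (HH p 1 / p ^ 2) + 7 / 64 * (p * HH p 4))) := by
  have h1 := (Q2_eq h3 hp2).mulL (x := -2) (mem23 h3 (-2) 0 0 (by norm_num))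
  have h2 := (H2_W h3).mulL (x := 3 / 2) (mem23 h3 3 1 0 (by norm_num))
  refine (congrArg (I p 3) ?_).mp (h1.add h2)
  ring

theorem fin3 (h3 : 3 < p) (hp3 : (3 : ℤ) ∣ (p : ℤ) * p - 1) :
    I p 3 ((- Q p 3 + p * HH p 4 / 3) - (- (8 / 9) * (HH p 1 / p ^ 2) + 67 / 243 * (p * HH p 4))) := by
  have h1 := (Q3_eq h3 hp3).mulL (x := -1) (mem23 h3 (-1) 0 0 (by norm_num))
  have h2 := (H2_W h3).mulL (x := 8 / 9) (mem23 h3 8 0 2 (by norm_num))
  refine (congrArg (I p 3) ?_).mp (h1.add h2)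
  ring

theorem fin2 (h3 : 3 < p) (hp2 : (2 : ℤ) ∣ (p : ℤ) * p - 1) (hp4 : (4 : ℤ) ∣ (p : ℤ) * p - 1) :
    I p 3 ((- (Q p 4 - Q p 2) + p * HH p 4 / 2) -
      (- (3 / 16) * (HH p 1 / p ^ 2) + 479 / 1024 * (p * HH p 4))) := by
  have h1 := (Q4_eq h3 hp2 hp4).mulL (x := -1) (mem23 h3 (-1) 0 0 (by norm_num))
  have h2 := (H2_W h3).mulL (x := 3 / 16) (mem23 h3 3 4 0 (by norm_num))
  refine (congrArg (I p 3) ?_).mp ((h1.add (Q2_eq h3 hp2)).add h2)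
  ring

theorem fin1 (h3 : 3 < p) (hp2 : (2 : ℤ) ∣ (p : ℤ) * p - 1) (hp3 : (3 : ℤ) ∣ (p : ℤ) * p - 1)
    (hp6 : (6 : ℤ) ∣ (p : ℤ) * p - 1) :
    I p 3 ((- (Q p 6 - Q p 2 - Q p 3) + p * HH p 4) -
      (2 / 3 * (HH p 1 / p ^ 2) + 19 / 27 * (p * HH p 4))) := by
  have h1 := (Q6_eq h3 hp2 hp3 hp6).mulL (x := -1) (mem23 h3 (-1) 0 0 (by norm_num))
  have h2 := (H2_W h3).mulL (x := - (2 / 3)) (mem23 h3 (-2) 0 1 (by norm_num))
  refine (congrArg (I p 3) ?_).mp (((h1.add (Q2_eq h3 hp2)).add (Q3_eq h3 hp3)).add h2)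
  ring

/-! ### the Bernoulli number -/

theorem bern_mem : ∀ i : ℕ, i + 1 < p → bernoulli i ∈ Zp p := by
  intro i
  induction i using Nat.strong_induction_on with
  | _ i ih =>
    intro hi
    have h1 := sum_bernoulli (i + 1)
    rw [sum_range_succ, Nat.choose_succ_self_right] at h1
    have hu := U_nat (p := p) (k := i + 1) (by omega) hi
    have h2 : (((i + 1 : ℕ) : ℚ)) * bernoulli i ∈ Zp p := by
      have h3 : (((i + 1 : ℕ) : ℚ)) * bernoulli i = (if i + 1 = 1 then 1 else 0) -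
        ∑ k ∈ range i, ((i + 1).choose k : ℚ) * bernoulli k := by
        rw [← h1]; ring
      rw [h3]
      refine sub_mem ?_ (sum_mem fun k hk => ?_)
      · split_ifs
        · exact one_mem _
        · exact zero_mem _
      · have := mem_range.1 hk
        exact mul_mem (nat_mem _) (ih k this (by omega))
    have h4 := mul_mem hu.2.2 h2
    rwa [← mul_assoc, inv_mul_cancel₀ hu.1, one_mul] at h4

/-- sums of powers modulo `p^2` -/
theorem faul {e : ℕ} (he2 : e + 1 < p) :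
    I p 2 (∑ k ∈ range p, (k : ℚ) ^ e - p * bernoulli e) := by
  have h1 := sum_range_pow p e
  have hu := U_nat (p := p) (k := e + 1) (by omega) he2
  rw [h1, sum_range_succ]
  have e1 : e + 1 - e = 1 := by omega
  rw [e1, Nat.choose_succ_self_right, pow_one]
  have h2 : bernoulli e * ((e + 1 : ℕ) : ℚ) * (p : ℚ) / ((e : ℚ) + 1) = p * bernoulli e := by
    have : (e : ℚ) + 1 ≠ 0 := by positivity
    push_cast
    field_simp
  rw [h2, add_sub_cancel_right]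
  refine I.sum fun i hi => ?_
  have hi' := mem_range.1 hi
  obtain ⟨t, ht⟩ : ∃ t, e + 1 - i = 2 + t := ⟨e + 1 - i - 2, by omega⟩
  rw [ht, pow_add]
  refine ⟨bernoulli i * ((e + 1).choose i : ℚ) * (p : ℚ) ^ t * ((e + 1 : ℕ) : ℚ)⁻¹, ?_, ?_⟩
  · exact mul_mem (mul_mem (mul_mem (bern_mem i (by omega)) (nat_mem _)) (pow_mem p_mem _)) hu.2.2
  · push_cast
    ring

omit hp in
theorem pow_exp {e s r : ℕ} (he : Even e) : ∃ K : ℤ, ((s : ℚ) * p - r) ^ e =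
    (r : ℚ) ^ e - e * (s * p) * (r : ℚ) ^ (e - 1) + (K : ℚ) * ((s : ℚ) * p) ^ 2 := by
  rcases Nat.eq_zero_or_pos e with h0 | h0
  · subst h0; exact ⟨0, by simp⟩
  obtain ⟨K, hK⟩ := Polynomial.powAddExpansion (-(r : ℤ)) ((s : ℤ) * (p : ℤ)) e
  have h3 : Odd (e - 1) := by
    obtain ⟨c, hc⟩ := he
    exact ⟨c - 1, by omega⟩
  refine ⟨K, ?_⟩
  have h4 : ((s : ℚ) * p - r) ^ e = ((-(r : ℤ) + (s : ℤ) * (p : ℤ) : ℤ) : ℚ) ^ e := by
    push_cast; ring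
  have h5 : ((-(r : ℤ) + (s : ℤ) * (p : ℤ) : ℤ) : ℚ) ^ e = (((-(r : ℤ) + (s : ℤ) * (p : ℤ)) ^ e : ℤ) : ℚ) := by
    push_cast; ring
  rw [h4, h5, hK]
  push_cast
  rw [he.neg_pow, h3.neg_pow]
  ring

theorem fermat {r : ℕ} (hr : r ∈ Ico 1 p) : I p 1 ((r : ℚ) ^ (p - 1) - 1) := by
  rw [mem_Ico] at hr
  have h1 : Int.ModEq p ((r : ℤ) ^ (p - 1)) 1 := by
    refine Int.ModEq.pow_card_sub_one_eq_one hp.out ?_
    rw [Nat.isCoprime_iff_coprime]
    exact (Nat.coprime_comm.1 ((Nat.Prime.coprime_iff_not_dvd hp.out).2 fun h => by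
      have := Nat.le_of_dvd (by omega) h; omega))
  obtain ⟨c, hc⟩ := h1.symm.dvd
  refine ⟨(c : ℚ), int_mem c, ?_⟩
  rw [pow_one]
  exact_mod_cast hc

theorem H4_bern (h7 : 7 ≤ p) (hp2 : (2 : ℤ) ∣ (p : ℤ) * p - 1) :
    I p 2 (HH p 4 - 4 / 5 * (p * bernoulli (p - 5))) := by
  have h3 : 3 < p := by omega
  obtain ⟨e, he⟩ : ∃ e, e = p - 5 := ⟨_, rfl⟩
  have he1 : e + 5 = p := by omega
  rw [← he]
  have hodd : p % 2 = 1 := by
    rcases hp.out.eq_two_or_odd with h | h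
    · omega
    · exact h
  have hev : Even e := Nat.even_iff.2 (by omega)
  have he0 : 2 ≤ e := by omega
  have hB := bern_mem (p := p) e (by omega)
  have hE := faul (p := p) (e := e) (by omega)
  have hE2 : ∑ k ∈ range p, (k : ℚ) ^ e = ∑ r ∈ Ico 1 p, (r : ℚ) ^ e := by
    rw [range_eq_Ico, sum_eq_sum_Ico_succ_bot (by omega)]
    simp [show e ≠ 0 by omega]
  rw [hE2] at hE
  -- the bijection for powers
  have hb := sum_bij (N := 2) two_pos (by exact_mod_cast hp2) (fun n => (n : ℚ) ^ e)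
  have h2 : ∑ j ∈ Ico 1 p, ((2 * j : ℕ) : ℚ) ^ e = 2 ^ e * ∑ r ∈ Ico 1 p, (r : ℚ) ^ e := by
    rw [mul_sum]
    refine sum_congr rfl fun j _ => ?_
    push_cast
    rw [mul_pow]
  rw [h2] at hb
  obtain ⟨E, hEE⟩ : ∃ E : ℚ, E = ∑ r ∈ Ico 1 p, (r : ℚ) ^ e := ⟨_, rfl⟩
  obtain ⟨V, hV⟩ : ∃ V : ℚ, V = ∑ r ∈ Ico 1 p, (sN p 2 r : ℚ) * (r : ℚ) ^ (e - 1) := ⟨_, rfl⟩
  have h4 : I p 2 (2 ^ e * E - (E - e * p * V)) := by
    have : I p 2 (∑ r ∈ Ico 1 p, (((sN p 2 r * p - r : ℕ) : ℚ) ^ e - ((r : ℚ) ^ e -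
        e * (sN p 2 r * p) * (r : ℚ) ^ (e - 1)))) := by
      refine I.sum fun r hr => ?_
      rw [cast_s hr]
      obtain ⟨K, hK⟩ := pow_exp (p := p) (s := sN p 2 r) (r := r) hev
      rw [hK]
      refine ⟨(K : ℚ) * (sN p 2 r : ℚ) ^ 2, mul_mem (int_mem K) (pow_mem (nat_mem _) 2), ?_⟩
      ring
    rw [sum_sub_distrib, sum_sub_distrib, hb, ← hEE] at this
    refine (congrArg (I p 2) ?_).mp this
    rw [hV, mul_sum]
    congr 2
    exact sum_congr rfl fun r _ => by ring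
  have hV5 : I p 1 (V - A p 5 (fun r => (sN p 2 r : ℚ))) := by
    rw [hV]
    unfold A
    rw [← sum_sub_distrib]
    refine I.sum fun r hr => ?_
    have hu := U_r hr
    have h5 := (fermat hr).mulL (mul_mem (nat_mem (p := p) (sN p 2 r)) (hu.pow 5).2.2)
    refine (congrArg (I p 1) ?_).mp h5
    have e2 : p - 1 = (e - 1) + 5 := by omega
    rw [e2, pow_add]
    have h6 := hu.1
    field_simp
  have hVm : V ∈ Zp p := by
    rw [hV]; exact sum_mem fun r _ => mul_mem (nat_mem _) (pow_mem (nat_mem _) _)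
  -- 16 * 2^e = 2^(p-1)
  have f2 : I p 1 (16 * (2 : ℚ) ^ e - 1) := by
    have := fermat (p := p) (r := 2) (by rw [mem_Ico]; omega)
    have e2 : p - 1 = e + 4 := by omega
    rw [e2, pow_add] at this
    refine (congrArg (I p 1) ?_).mp this
    push_cast; ring
  have hp1 := I_p (p := p)
  rw [← hEE] at hE
  obtain ⟨B, hBB⟩ : ∃ B : ℚ, B = bernoulli e := ⟨_, rfl⟩
  rw [← hBB] at hE hB ⊢
  obtain ⟨T, hT⟩ : ∃ T : ℚ, T = 2 ^ e := ⟨_, rfl⟩
  rw [← hT] at h4 f2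
  have hTm : T ∈ Zp p := by rw [hT]; exact pow_mem (num_mem 2) _
  obtain ⟨V5, hV5'⟩ : ∃ V5 : ℚ, V5 = A p 5 (fun r => (sN p 2 r : ℚ)) := ⟨_, rfl⟩
  rw [← hV5'] at hV5
  have hV5m : V5 ∈ Zp p := by rw [hV5']; exact A_mem fun r _ => nat_mem _
  -- 15/16 B + 5 V5
  have g1 : I p 1 (15 * B + 80 * V5) := by
    have heq : (e : ℚ) = p - 5 := by
      have : ((e + 5 : ℕ) : ℚ) = p := by rw [he1]
      push_cast at this
      linear_combination this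
    rw [heq] at h4
    have q1 := h4.mulL (x := 16) (num_mem 16)
    have q2 := (hE.mulL (x := 16 * T - 16) (sub_mem (mul_mem (num_mem 16) hTm) (num_mem 16)))
    have q3 := (hp1.mul f2).mulR hB
    have q4 := (hp1.mul hV5).mulL (x := 80) (num_mem 80)
    have q5 := (hp1.mul hp1).mulL (x := 16 * V) (mul_mem (num_mem 16) hVm)
    apply I_p_mul_iff.1
    have := (((q1.sub q2).sub q3).add q4).sub q5
    have := this.neg
    refine (congrArg (I p 2) ?_).mp this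
    ring
  have g2 := VN (N := 2) two_pos (by exact_mod_cast hp2)
  rw [← hV5'] at g2
  have u5 : U p (5 : ℚ) := by exact_mod_cast U_nat (p := p) (k := 5) (by omega) (by omega)
  have u75 : U p (75 : ℚ) := by
    have := (U3 h3).mul (u5.mul u5); norm_num at this; exact this
  have g3 := (g2.mulL (x := 80) (num_mem 80)).sub ((hp1.mul g1).mulL (x := 4) (num_mem 4))
  refine u75.cancel ((congrArg (I p 2) ?_).mp g3)
  push_cast
  ring

end Pool.Agent.T2H53.HB
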