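import Pool.Agent.T2H53.HB.A3

set_option autoImplicit false

/-!
The coefficients of the power series of `∑ v_k t^k`, `t = x/(1+x)^2`.
-/

namespace Pool.Agent.T2H53.HB

open Finset Pool.Agent.R439.PL

/-- the coefficient of `x^n` in `(x/(1+x)^2)^k` -/
def b (n k : ℕ) : ℚ := (-1) ^ (n + k) * ((n + k - 1).choose (2 * k - 1) : ℚ)

theorem choose_rec {n k : ℕ} (hn : 1 ≤ n) (hk : 1 ≤ k) :
    ((n : ℚ) ^ 2 - k ^ 2) * ((n + k - 1).choose (2 * k - 1) : ℚ) =
      2 * k * (2 * k + 1) * ((n + k).choose (2 * k + 1) : ℚ) := by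
  obtain ⟨m, hm⟩ : ∃ m, n + k = m + 1 := ⟨n + k - 1, by omega⟩
  obtain ⟨j, hj⟩ : ∃ j, 2 * k = j + 1 := ⟨2 * k - 1, by omega⟩
  rw [hm, Nat.add_sub_cancel, hj, Nat.add_sub_cancel]
  have h1 := Nat.add_one_mul_choose_eq m j
  have h2 := Nat.choose_succ_right_eq (m + 1) (j + 1)
  have h1' : ((m : ℚ) + 1) * (m.choose j : ℚ) = ((m + 1).choose (j + 1) : ℚ) * (j + 1) := by
    exact_mod_cast h1
  have hm' : (n : ℚ) + k = m + 1 := by exact_mod_cast hm
  have hj' : 2 * (k : ℚ) = j + 1 := by exact_mod_cast hj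
  have h2' : ((m + 1).choose (j + 1 + 1) : ℚ) * (j + 1 + 1) =
      ((m + 1).choose (j + 1) : ℚ) * ((n : ℚ) - k) := by
    rcases le_or_gt k n with h | h
    · have e : m + 1 - (j + 1) = n - k := by omega
      rw [e] at h2
      have : (((n - k : ℕ)) : ℚ) = (n : ℚ) - k := Nat.cast_sub h
      rw [← this]
      exact_mod_cast h2
    · have e1 : (m + 1).choose (j + 1) = 0 := Nat.choose_eq_zero_of_lt (by omega)
      have e2 : (m + 1).choose (j + 1 + 1) = 0 := Nat.choose_eq_zero_of_lt (by omega)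
      rw [e1, e2]; simp
  have e3 : ((n : ℚ) ^ 2 - k ^ 2) = (n - k) * (m + 1) := by rw [← hm']; ring
  rw [e3, hj']
  linear_combination ((n : ℚ) - k) * h1' - (j + 1) * h2'

theorem b_rec {n k : ℕ} (hn : 1 ≤ n) (hk : 1 ≤ k) :
    (n : ℚ) ^ 2 * b n k = k ^ 2 * b n k - 2 * k * (2 * k + 1) * b n (k + 1) := by
  have h := choose_rec hn hk
  unfold b
  have e1 : n + (k + 1) - 1 = n + k := by omega
  have e2 : 2 * (k + 1) - 1 = 2 * k + 1 := by omega
  rw [e1, e2]
  have e3 : (-1 : ℚ) ^ (n + (k + 1)) = - (-1) ^ (n + k) := by rw [← add_assoc, pow_succ]; ring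
  rw [e3]
  linear_combination (-1 : ℚ) ^ (n + k) * h

/-- partial sums of `1/j^2` -/
def h2 (k : ℕ) : ℚ := ∑ j ∈ Ico 1 (k + 1), 1 / (j : ℚ) ^ 2

theorem h2_succ (k : ℕ) : h2 (k + 1) = h2 k + 1 / ((k + 1 : ℕ) : ℚ) ^ 2 := by
  unfold h2
  rw [sum_Ico_succ_top (by omega)]

/-- `binom(2k,k)/k` -/
def u (k : ℕ) : ℚ := (Nat.centralBinom k : ℚ) / k

/-- `σ_n`, the coefficient of `x^n` -/
def sg (p n : ℕ) : ℚ := ∑ k ∈ Ico 1 p, u k * h2 k * b n k

theorem tele1 {n : ℕ} (hn : 1 ≤ n) {m : ℕ} (hm : 1 ≤ m) :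
    (n : ℚ) ^ 2 * ∑ k ∈ Ico 1 m, u k * b n k = 2 * b n 1 - m * (Nat.centralBinom m : ℚ) * b n m := by
  induction m, hm using Nat.le_induction with
  | base => simp [Nat.centralBinom]
  | succ m hm ih =>
    rw [sum_Ico_succ_top hm, mul_add, ih]
    have h1 := b_rec hn hm
    have h2 := Nat.succ_mul_centralBinom_succ m
    have h2' : ((m : ℚ) + 1) * (Nat.centralBinom (m + 1) : ℚ) =
        2 * (2 * m + 1) * (Nat.centralBinom m : ℚ) := by exact_mod_cast h2
    have hm0 : (m : ℚ) ≠ 0 := by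
      have : m ≠ 0 := by omega
      exact_mod_cast this
    unfold u
    push_cast
    field_simp
    linear_combination (Nat.centralBinom m : ℚ) * h1 + (m : ℚ) * b n (m + 1) * h2'

theorem tele2 {n : ℕ} (hn : 1 ≤ n) {m : ℕ} (hm : 1 ≤ m) :
    (n : ℚ) ^ 2 * sg m n = ∑ k ∈ Ico 1 m, u k * b n k -
      m * (Nat.centralBinom m : ℚ) * h2 (m - 1) * b n m := by
  unfold sg
  induction m, hm using Nat.le_induction with
  | base => simp [h2]
  | succ m hm ih =>
    rw [sum_Ico_succ_top hm, sum_Ico_succ_top hm, mul_add, ih]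
    have h1 := b_rec hn hm
    have h3 := Nat.succ_mul_centralBinom_succ m
    have h3' : ((m : ℚ) + 1) * (Nat.centralBinom (m + 1) : ℚ) =
        2 * (2 * m + 1) * (Nat.centralBinom m : ℚ) := by exact_mod_cast h3
    have hm0 : (m : ℚ) ≠ 0 := by
      have : m ≠ 0 := by omega
      exact_mod_cast this
    obtain ⟨q, rfl⟩ : ∃ q, m = q + 1 := ⟨m - 1, by omega⟩
    rw [Nat.add_sub_cancel, Nat.add_sub_cancel, h2_succ]
    generalize h2 q = H at *
    generalize q + 1 = m at *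
    unfold u
    push_cast
    field_simp
    linear_combination (Nat.centralBinom m : ℚ) * (m ^ 2 * H + 1) * h1 +
      (m : ℚ) * b n (m + 1) * (m ^ 2 * H + 1) * h3'

/-- `c_n = p binom(2p,p) binom(n+p-1,2p-1)` -/
def cc (p n : ℕ) : ℚ := p * (Nat.centralBinom p : ℚ) * ((n + p - 1).choose (2 * p - 1) : ℚ)

theorem sg_eq {p n : ℕ} (hp : p % 2 = 1) (hn : 1 ≤ n) :
    (n : ℚ) ^ 4 * sg p n = (-1) ^ (n + 1) * (2 * n - cc p n * (1 + n ^ 2 * h2 (p - 1))) := by
  have hp1 : 1 ≤ p := by omega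
  have h1 := tele1 hn hp1
  have h3 := tele2 hn hp1
  have e1 : b n 1 = (-1) ^ (n + 1) * n := by
    unfold b
    simp
  have e2 : b n p = (-1) ^ (n + 1) * ((n + p - 1).choose (2 * p - 1) : ℚ) := by
    unfold b
    congr 1
    obtain ⟨q, hq⟩ : ∃ q, p = 2 * q + 1 := ⟨p / 2, by omega⟩
    rw [hq, pow_add, pow_succ (-1 : ℚ) (2 * q), pow_mul, pow_succ (-1 : ℚ) n]
    norm_num
  rw [e1, e2] at h1
  rw [e2] at h3
  unfold cc
  linear_combination (n : ℚ) ^ 2 * h3 + h1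

/-! ### the product formula for `c_n` -/

theorem choose_prod {n : ℕ} (hn : 1 ≤ n) (q : ℕ) :
    ((n + q).choose (2 * q + 1) : ℚ) * ((2 * q + 1).factorial : ℚ) =
      n * ∏ j ∈ range q, ((n : ℚ) ^ 2 - ((j : ℚ) + 1) ^ 2) := by
  induction q with
  | zero => simp
  | succ q ih =>
    rw [prod_range_succ, ← mul_assoc, ← ih]
    have h := choose_rec hn (k := q + 1) (by omega)
    have e1 : n + (q + 1) - 1 = n + q := by omega
    have e2 : 2 * (q + 1) - 1 = 2 * q + 1 := by omega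
    rw [e1, e2] at h
    have e3 : (2 * (q + 1) + 1).factorial = (2 * q + 3) * ((2 * q + 2) * (2 * q + 1).factorial) := by
      rw [show 2 * (q + 1) + 1 = (2 * q + 1) + 1 + 1 by ring, Nat.factorial_succ, Nat.factorial_succ]
    rw [e3]
    push_cast at h ⊢
    linear_combination (-((2 * q + 1).factorial : ℚ)) * h

theorem cc_prod {p n : ℕ} (hp : 1 ≤ p) (hn : 1 ≤ n) :
    cc p n = 2 * n * ∏ j ∈ range (p - 1), (((n : ℚ) ^ 2 - ((j : ℚ) + 1) ^ 2) / ((j : ℚ) + 1) ^ 2) := by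
  obtain ⟨q, rfl⟩ : ∃ q, p = q + 1 := ⟨p - 1, by omega⟩
  have h1 := choose_prod hn q
  rw [Nat.add_sub_cancel, prod_div_distrib, prod_pow]
  have e1 : n + (q + 1) - 1 = n + q := by omega
  have e2 : 2 * (q + 1) - 1 = 2 * q + 1 := by omega
  unfold cc
  rw [e1, e2]
  have e3 : (∏ j ∈ range q, ((j : ℚ) + 1)) = (q.factorial : ℚ) := by
    rw [← prod_range_add_one_eq_factorial]; push_cast; rfl
  rw [e3]
  have e4 : (Nat.centralBinom (q + 1) : ℚ) * ((q + 1).factorial : ℚ) ^ 2 = ((2 * (q + 1)).factorial : ℚ) := by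
    have h := Nat.choose_mul_factorial_mul_factorial (n := 2 * (q + 1)) (k := q + 1) (by omega)
    rw [show 2 * (q + 1) - (q + 1) = q + 1 by omega] at h
    rw [Nat.centralBinom, pow_two, ← mul_assoc]
    exact_mod_cast h
  have e5 : (2 * (q + 1)).factorial = (2 * q + 2) * (2 * q + 1).factorial := by
    rw [show 2 * (q + 1) = (2 * q + 1) + 1 by ring, Nat.factorial_succ]
  have e6 : (q + 1).factorial = (q + 1) * q.factorial := Nat.factorial_succ q
  rw [e5, e6] at e4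
  have hf : (q.factorial : ℚ) ≠ 0 := by exact_mod_cast q.factorial_ne_zero
  push_cast at e4 ⊢
  have hq : (q : ℚ) + 1 ≠ 0 := by positivity
  have e7 : (Nat.centralBinom (q + 1) : ℚ) * ((q : ℚ) + 1) * (q.factorial : ℚ) ^ 2 = 2 * ((2 * q + 1).factorial : ℚ) := by
    apply mul_left_cancel₀ hq
    linear_combination e4
  rw [← mul_div_assoc, eq_div_iff (pow_ne_zero _ hf)]
  linear_combination (((n + q).choose (2 * q + 1) : ℚ)) * e7 + 2 * h1

end Pool.Agent.T2H53.HB
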