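import Pool.Agent.T2H53.HB.B1

set_option autoImplicit false

/-!
The coefficients `σ_n` modulo `p^3`.
-/

namespace Pool.Agent.T2H53.HB

open Finset Pool.Agent.R439.PL

variable {p : ℕ} [hp : Fact p.Prime]

omit hp in
theorem h2_HH (hp1 : 1 ≤ p) : h2 (p - 1) = HH p 2 := by
  unfold h2 HH
  rw [Nat.sub_add_cancel hp1]

theorem H2_I (h3 : 3 < p) (hp2 : (2 : ℤ) ∣ (p : ℤ) * p - 1) : I p 1 (HH p 2) := by
  have h1 := RN (N := 2) two_pos (by exact_mod_cast hp2)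
  have hA3 := A_mem (p := p) (k := 3) (f := fun r => (sN p 2 r : ℚ)) fun r _ => nat_mem _
  have hA4 := A_mem (p := p) (k := 4) (f := fun r => (sN p 2 r : ℚ) ^ 2) fun r _ => pow_mem (nat_mem _) _
  have hA5 := A_mem (p := p) (k := 5) (f := fun r => (sN p 2 r : ℚ) ^ 3) fun r _ => pow_mem (nat_mem _) _
  have hpm := p_mem (p := p)
  generalize A p 3 (fun r => (sN p 2 r : ℚ)) = a3 at *
  generalize A p 4 (fun r => (sN p 2 r : ℚ) ^ 2) = a4 at *
  generalize A p 5 (fun r => (sN p 2 r : ℚ) ^ 3) = a5 at *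
  have h2 := h1.mono (l := 1) (by norm_num)
  have h4 := (I_p (p := p)).mulR (y := 2 * a3 + 3 * p * a4 + 4 * p ^ 2 * a5)
    (add_mem (add_mem (mul_mem (num_mem 2) hA3) (mul_mem (mul_mem (num_mem 3) hpm) hA4))
      (mul_mem (mul_mem (num_mem 4) (pow_mem hpm 2)) hA5))
  have h5 := (h2.sub h4).mulL (num_mem 4)
  refine (U3 h3).cancel ((congrArg (I p 1) ?_).mp h5)
  push_cast
  ring

theorem I_of_nat_modEq {a c : ℕ} (h : a ≡ c [MOD p]) : I p 1 ((a : ℚ) - c) := by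
  have h1 := (Nat.modEq_iff_dvd.1 h.symm)
  obtain ⟨k, hk⟩ := h1
  refine ⟨k, int_mem k, ?_⟩
  rw [pow_one]
  exact_mod_cast hk

theorem cB_I : I p 1 ((Nat.centralBinom p : ℚ) - 2) := by
  have h := Choose.choose_modEq_choose_mod_mul_choose_div_nat (p := p) (n := 2 * p) (k := p)
  have hp0 := hp.out.pos
  rw [Nat.mul_mod_left, Nat.mod_self, Nat.mul_div_cancel _ hp0, Nat.div_self hp0] at h
  have := I_of_nat_modEq (p := p) h
  simpa [Nat.centralBinom] using this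

theorem C_I {l r : ℕ} (hr : r < p) :
    I p 1 (((p * l + r + p).choose (2 * p) : ℚ) - l * (l + 1) / 2) := by
  have h := Choose.choose_modEq_choose_mod_mul_choose_div_nat (p := p) (n := p * l + r + p) (k := 2 * p)
  have hp0 := hp.out.pos
  have e1 : (p * l + r + p) % p = r := by
    rw [Nat.add_mod_right, Nat.mul_add_mod, Nat.mod_eq_of_lt hr]
  have e2 : (p * l + r + p) / p = l + 1 := by
    rw [Nat.add_div_right _ hp0, Nat.mul_add_div hp0, Nat.div_eq_of_lt hr]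
  rw [e1, e2, Nat.mul_mod_left, Nat.mul_div_cancel _ hp0, Nat.choose_zero_right, one_mul] at h
  have := I_of_nat_modEq (p := p) h
  refine (congrArg (I p 1) ?_).mp this
  rw [Nat.cast_choose_two]
  push_cast
  ring

theorem U_n {l r : ℕ} (hr : r ∈ Ico 1 p) : U p ((p * l + r : ℕ) : ℚ) := by
  rw [mem_Ico] at hr
  apply U_nat'
  intro h
  have : p ∣ r := (Nat.dvd_add_right (Dvd.intro l rfl)).1 h
  have := Nat.le_of_dvd (by omega) this
  omega

theorem cc_I (h3 : 3 < p) {l r : ℕ} (hr : r ∈ Ico 1 p) :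
    I p 3 (cc p (p * l + r) - 2 * p ^ 2 * (l * (l + 1)) / r) := by
  have hr' := mem_Ico.1 hr
  have hp0 := hp.out.pos
  have h1 := Nat.add_one_mul_choose_eq (p * l + r + p - 1) (2 * p - 1)
  rw [show p * l + r + p - 1 + 1 = p * l + r + p by omega, show 2 * p - 1 + 1 = 2 * p by omega] at h1
  have h1' : (((p * l + r + p : ℕ)) : ℚ) * ((p * l + r + p - 1).choose (2 * p - 1) : ℚ) =
      ((p * l + r + p).choose (2 * p) : ℚ) * (2 * p) := by exact_mod_cast h1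
  have hu := U_n (p := p) (l := l + 1) hr
  have e1 : p * (l + 1) + r = p * l + r + p := by ring
  rw [e1] at hu
  have hur := U_r hr
  have k1 := cB_I (p := p)
  have k2 := C_I (p := p) (l := l) hr'.2
  have hl1 : ((l : ℚ) + 1) ∈ Zp p := by exact_mod_cast nat_mem (p := p) (l + 1)
  have hL : (l : ℚ) * (l + 1) / 2 ∈ Zp p := mem_div (mul_mem (nat_mem l) hl1) (U2 h3)
  unfold cc
  generalize (Nat.centralBinom p : ℚ) = B at *
  generalize ((p * l + r + p).choose (2 * p) : ℚ) = C at *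
  generalize ((p * l + r + p - 1).choose (2 * p - 1) : ℚ) = D at *
  obtain ⟨n, hn⟩ : ∃ n : ℚ, n = ((p * l + r + p : ℕ) : ℚ) := ⟨_, rfl⟩
  rw [← hn] at h1' hu
  have hn' : n = p * l + r + p := by rw [hn]; push_cast; ring
  have hCm : C ∈ Zp p := by
    have := add_mem k2.mem hL
    rwa [sub_add_cancel] at this
  have hD : D = C * (2 * p) / n := by rw [eq_div_iff hu.1, ← h1']; ring
  rw [hD]
  -- the bracket
  have b1 : I p 1 (B * C / n - l * (l + 1) / r) := by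
    have t1 := k1.mulR (mul_mem hCm hu.2.2)
    have t2 := (k2.mulL (num_mem 2)).mulR hu.2.2
    have t3 := ((I_p (p := p)).mulR (y := (l + 1) * (l * (l + 1)) / (n * r))
      (mem_div (mul_mem hl1 (mul_mem (nat_mem l) hl1)) (hu.mul hur)))
    refine (congrArg (I p 1) ?_).mp ((t1.add t2).sub t3)
    have hn0 := hu.1
    have hr0 := hur.1
    field_simp
    rw [hn']
    ring
  have hp1 := I_p (p := p)
  have b2 := ((hp1.mul hp1).mul b1).mulL (num_mem 2)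
  refine (congrArg (I p 3) ?_).mp b2
  have hn0 := hu.1
  have hr0 := hur.1
  field_simp

theorem inv3_I {l r : ℕ} (hr : r ∈ Ico 1 p) : I p 3 (1 / ((p * l + r : ℕ) : ℚ) ^ 3 -
    (1 / (r : ℚ) ^ 3 - 3 * p * l / (r : ℚ) ^ 4 + 6 * p ^ 2 * l ^ 2 / (r : ℚ) ^ 5)) := by
  have hu := U_n (p := p) (l := l) hr
  have hur := U_r hr
  refine ⟨- (l ^ 3 * (10 + 15 * (l * (p / r)) + 6 * (l * (p / r)) ^ 2)) / (r ^ 3 * ((p * l + r : ℕ) : ℚ) ^ 3), ?_, ?_⟩
  · have h5 : (l : ℚ) * (p / r) ∈ Zp p := mul_mem (nat_mem l) (mem_div p_mem hur)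
    exact mem_div (neg_mem (mul_mem (pow_mem (nat_mem l) 3) (add_mem (add_mem (num_mem 10)
      (mul_mem (num_mem 15) h5)) (mul_mem (num_mem 6) (pow_mem h5 2))))) ((hur.pow 3).mul (hu.pow 3))
  · have h3 := hu.1
    have h4 := hur.1
    push_cast at h3 ⊢
    field_simp
    ring

theorem inv4_I {l r : ℕ} (hr : r ∈ Ico 1 p) : I p 1 (1 / ((p * l + r : ℕ) : ℚ) ^ 4 - 1 / (r : ℚ) ^ 4) := by
  have hu := U_n (p := p) (l := l) hr
  have hur := U_r hr
  have h5 : (p : ℚ) * l ∈ Zp p := mul_mem p_mem (nat_mem l)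
  have h6 := nat_mem (p := p) r
  refine ⟨- (l * (4 * r ^ 3 + 6 * r ^ 2 * (p * l) + 4 * r * (p * l) ^ 2 + (p * l) ^ 3)) /
    (r ^ 4 * ((p * l + r : ℕ) : ℚ) ^ 4), ?_, ?_⟩
  · exact mem_div (neg_mem (mul_mem (nat_mem l) (add_mem (add_mem (add_mem (mul_mem (num_mem 4)
      (pow_mem h6 3)) (mul_mem (mul_mem (num_mem 6) (pow_mem h6 2)) h5))
      (mul_mem (mul_mem (num_mem 4) h6) (pow_mem h5 2))) (pow_mem h5 3)))) ((hur.pow 4).mul (hu.pow 4))
  · have h3 := hu.1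
    have h4 := hur.1
    push_cast at h3 ⊢
    field_simp
    ring

/-- the main term of `σ_n / (2 (-1)^(n+1))`, `n = p l + r` -/
def mt (p l r : ℕ) : ℚ := 1 / (r : ℚ) ^ 3 - 3 * p * l / (r : ℚ) ^ 4 + (5 * l ^ 2 - l) * p ^ 2 / (r : ℚ) ^ 5

theorem neg_one_mul_I {k n : ℕ} {x : ℚ} (h : I p k x) : I p k ((-1) ^ n * x) :=
  h.mulL (pow_mem (neg_mem (one_mem _)) n)

theorem odd_of (h3 : 3 < p) : p % 2 = 1 := by
  rcases hp.out.eq_two_or_odd with h | h
  · omega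
  · exact h

theorem two_dvd (h3 : 3 < p) : (2 : ℤ) ∣ (p : ℤ) * p - 1 := by
  have h := odd_of h3
  obtain ⟨q, hq⟩ : ∃ q, p = 2 * q + 1 := ⟨p / 2, by omega⟩
  exact ⟨2 * (q * q) + 2 * q, by rw [hq]; push_cast; ring⟩

theorem sg_r (h3 : 3 < p) {l r : ℕ} (hr : r ∈ Ico 1 p) :
    I p 3 (sg p (p * l + r) - (-1) ^ (p * l + r + 1) * (2 * mt p l r)) := by
  have hr' := mem_Ico.1 hr
  have h1 := sg_eq (n := p * l + r) (odd_of h3) (by omega)
  rw [h2_HH (by omega)] at h1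
  have k1 := cc_I h3 (l := l) hr
  have k2 := inv3_I (l := l) hr
  have k3 := inv4_I (l := l) hr
  have k4 := H2_I h3 (two_dvd h3)
  have hu := U_n (p := p) (l := l) hr
  have hur := U_r hr
  have hl1 : ((l : ℚ) + 1) ∈ Zp p := by exact_mod_cast nat_mem (p := p) (l + 1)
  have he : ((-1 : ℚ) ^ (p * l + r + 1)) ∈ Zp p := pow_mem (neg_mem (one_mem _)) _
  unfold mt
  generalize (-1 : ℚ) ^ (p * l + r + 1) = e at *
  generalize cc p (p * l + r) = c at *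
  generalize sg p (p * l + r) = s at *
  generalize HH p 2 = H at *
  have hp1 := I_p (p := p)
  obtain ⟨X, hX⟩ : ∃ X : ℚ, X = 2 * p ^ 2 * (l * (l + 1)) / r := ⟨_, rfl⟩
  have hX2 : I p 2 X := by
    have := (hp1.mul hp1).mulR (y := 2 * (l * (l + 1)) / r)
      (mem_div (mul_mem (num_mem 2) (mul_mem (nat_mem l) hl1)) hur)
    refine (congrArg (I p 2) ?_).mp this
    rw [hX]; ring
  rw [← hX] at k1
  have hc2 : I p 2 c := by
    have := (k1.mono (l := 2) (by norm_num)).add hX2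
    rwa [sub_add_cancel] at this
  have t1 := k2.mulL (num_mem 2)
  have t2 := k1.mulR (hu.pow 4).2.2
  have t3 := hX2.mul k3
  have t4 := (hc2.mul k4).mulR (hu.pow 2).2.2
  have t5 := (((t1.sub t2).sub t3).sub t4).mulL he
  obtain ⟨n, hn⟩ : ∃ n : ℚ, n = ((p * l + r : ℕ) : ℚ) := ⟨_, rfl⟩
  rw [← hn] at h1 hu t5
  have hn0 := hu.1
  have hr0 := hur.1
  have hs : s = e * (2 * n - c * (1 + n ^ 2 * H)) / n ^ 4 := by
    rw [eq_div_iff (pow_ne_zero _ hn0), ← h1]; ring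
  refine (congrArg (I p 3) ?_).mp t5
  rw [hs, hX]
  field_simp
  ring

theorem prod_exp3 {ι : Type*} (t : Finset ι) {x : ι → ℚ} (hx : ∀ i ∈ t, x i ∈ Zp p) {y : ℚ}
    (hy : y ∈ Zp p) (h3 : 3 < p) : ∃ g ∈ Zp p, ∏ i ∈ t, (1 - y * x i) =
      1 - (∑ i ∈ t, x i) * y + ((∑ i ∈ t, x i) ^ 2 - ∑ i ∈ t, x i ^ 2) / 2 * y ^ 2 + g * y ^ 3 := by
  classical
  induction t using Finset.induction_on with
  | empty => exact ⟨0, zero_mem _, by simp⟩
  | insert a t ha ih =>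
    obtain ⟨g, hg, h⟩ := ih fun i hi => hx i (mem_insert_of_mem hi)
    have hxa := hx a (mem_insert_self _ _)
    have hS : ∑ i ∈ t, x i ∈ Zp p := sum_mem fun i hi => hx i (mem_insert_of_mem hi)
    have hS2 : ∑ i ∈ t, x i ^ 2 ∈ Zp p := sum_mem fun i hi => pow_mem (hx i (mem_insert_of_mem hi)) 2
    refine ⟨g - x a * (((∑ i ∈ t, x i) ^ 2 - ∑ i ∈ t, x i ^ 2) / 2) - x a * g * y, ?_, ?_⟩
    · exact sub_mem (sub_mem hg (mul_mem hxa (mem_div (sub_mem (pow_mem hS 2) hS2) (U2 h3))))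
        (mul_mem (mul_mem hxa hg) hy)
    · rw [prod_insert ha, h, sum_insert ha, sum_insert ha]
      ring

theorem sg_0 (h3 : 3 < p) {l : ℕ} (hl : 1 ≤ l) :
    I p 3 (sg p (p * l) - (-1) ^ (p * l + 1) * (l * (p * HH p 4))) := by
  have hp0 := hp.out.pos
  have hn1 : 1 ≤ p * l := Nat.mul_pos hp0 hl
  have h1 := sg_eq (n := p * l) (odd_of h3) hn1
  rw [h2_HH (by omega)] at h1
  have h2 := cc_prod (p := p) (n := p * l) (by omega) hn1
  obtain ⟨n, hn⟩ : ∃ n : ℚ, n = ((p * l : ℕ) : ℚ) := ⟨_, rfl⟩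
  rw [← hn] at h1 h2
  have hn' : n = p * l := by rw [hn]; push_cast; ring
  have hnm : n ∈ Zp p := by rw [hn]; exact nat_mem _
  have hev : Even (p - 1) := Nat.even_iff.2 (by have := odd_of h3; omega)
  have h4 : ∏ j ∈ range (p - 1), ((n ^ 2 - ((j : ℚ) + 1) ^ 2) / ((j : ℚ) + 1) ^ 2) =
      ∏ r ∈ Ico 1 p, (1 - n ^ 2 * (1 / (r : ℚ) ^ 2)) := by
    have e1 : ∏ j ∈ range (p - 1), ((n ^ 2 - ((j : ℚ) + 1) ^ 2) / ((j : ℚ) + 1) ^ 2) =
        ∏ j ∈ range (p - 1), ((-1) * (1 - n ^ 2 * (1 / (((j + 1 : ℕ) : ℚ)) ^ 2))) := by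
      refine prod_congr rfl fun j _ => ?_
      have : (j : ℚ) + 1 ≠ 0 := by positivity
      push_cast
      field_simp
      ring
    rw [e1, prod_mul_distrib, prod_const, card_range, hev.neg_one_pow, one_mul, prod_Ico_eq_prod_range]
    exact prod_congr rfl fun j _ => by rw [Nat.add_comm 1 j]
  have hx : ∀ r ∈ Ico 1 p, (1 / (r : ℚ) ^ 2) ∈ Zp p := fun r hr => mem_div (one_mem _) ((U_r hr).pow 2)
  obtain ⟨g, hg, h5⟩ := prod_exp3 (Ico 1 p) hx (pow_mem hnm 2) h3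
  have e2 : ∑ r ∈ Ico 1 p, 1 / (r : ℚ) ^ 2 = HH p 2 := rfl
  have e3 : ∑ r ∈ Ico 1 p, (1 / (r : ℚ) ^ 2) ^ 2 = HH p 4 := by
    unfold HH
    exact sum_congr rfl fun r _ => by rw [div_pow, one_pow, ← pow_mul]
  rw [e2, e3] at h5
  rw [h4, h5] at h2
  have k4 := H2_I h3 (two_dvd h3)
  have hH4 := HH_mem (p := p) 4
  have he : ((-1 : ℚ) ^ (p * l + 1)) ∈ Zp p := pow_mem (neg_mem (one_mem _)) _
  have hn0 : n ≠ 0 := by
    rw [hn]
    have : p * l ≠ 0 := by omega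
    exact_mod_cast this
  generalize (-1 : ℚ) ^ (p * l + 1) = e at *
  generalize cc p (p * l) = c at *
  generalize sg p (p * l) = s at *
  generalize HH p 2 = E at *
  generalize HH p 4 = P at *
  have hE := k4.mem
  have hnI : I p 1 n := by
    rw [hn']
    exact (I_p (p := p)).mulR (nat_mem l)
  have t1 := (hnI.mul (k4.mul k4))
  have t2 := ((hnI.mul hnI).mul hnI).mulR (y := 2 * ((E ^ 2 - P) / 2 * E + g + n ^ 2 * g * E))
    (mul_mem (num_mem 2) (add_mem (add_mem (mul_mem (mem_div (sub_mem (pow_mem hE 2) hH4) (U2 h3)) hE) hg)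
      (mul_mem (mul_mem (pow_mem hnm 2) hg) hE)))
  have t3 := (t1.sub t2).mulL he
  refine (congrArg (I p 3) ?_).mp t3
  have hs : s = e * (2 * n - c * (1 + n ^ 2 * E)) / n ^ 4 := by
    rw [eq_div_iff (pow_ne_zero _ hn0), ← h1]; ring
  rw [hs, h2, show (l : ℚ) * (p * P) = n * P by rw [hn']; ring]
  field_simp
  ring

end Pool.Agent.T2H53.HB
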