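import Pool.Agent.T2H53.HB.B2

set_option autoImplicit false

/-!
The polynomial congruence behind the sums.
-/

namespace Pool.Agent.T2H53.HB

open Finset Pool.Agent.R439.PL

section PS

open PowerSeries

/-- `1/(1+x)` -/
noncomputable def gg : ℚ⟦X⟧ := mk fun n => (-1) ^ n

theorem one_add_gg : (1 + X) * gg = 1 := by
  ext n
  rw [add_mul, one_mul, map_add]
  cases n with
  | zero => simp [gg]
  | succ n =>
    rw [coeff_succ_X_mul, gg, coeff_mk, coeff_mk, coeff_one, if_neg (Nat.succ_ne_zero n)]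
    rw [pow_succ]; ring

theorem gg_pow (d : ℕ) : gg ^ (d + 1) = mk fun n => (-1) ^ n * (((d + n).choose d : ℕ) : ℚ) := by
  have h1 : gg = rescale (-1 : ℚ) (mk 1) := by
    rw [rescale_mk]
    ext n
    simp [gg]
  rw [h1, ← map_pow, mk_one_pow_eq_mk_choose_add, rescale_mk]

theorem coeff_tau {k : ℕ} (hk : 1 ≤ k) (n : ℕ) : coeff n (X ^ k * gg ^ (2 * k)) = b n k := by
  obtain ⟨d, hd⟩ : ∃ d, 2 * k = d + 1 := ⟨2 * k - 1, by omega⟩
  rw [coeff_X_pow_mul', hd, gg_pow]
  unfold b
  split_ifs with h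
  · rw [coeff_mk]
    have e1 : n + k - 1 = d + (n - k) := by omega
    have e2 : d + 1 - 1 = d := by omega
    rw [hd, e1, e2]
    congr 1
    obtain ⟨j, rfl⟩ : ∃ j, n = k + j := ⟨n - k, by omega⟩
    rw [Nat.add_sub_cancel_left, show k + j + k = 2 * k + j by ring, pow_add, pow_mul]
    norm_num
  · rw [Nat.choose_eq_zero_of_lt (by omega)]
    simp

/-- the generating series -/
noncomputable def FF (p : ℕ) : ℚ⟦X⟧ := mk (sg p)

theorem FF_eq (p : ℕ) : FF p = ∑ k ∈ Ico 1 p, C (u k * h2 k) * (X ^ k * gg ^ (2 * k)) := by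
  ext n
  rw [FF, coeff_mk, map_sum]
  unfold sg
  refine sum_congr rfl fun k hk => ?_
  rw [coeff_C_mul, coeff_tau (mem_Ico.1 hk).1]

/-- the polynomial `∑ v_k x^k (1+x)^(2(p-1-k))` -/
noncomputable def PP (p : ℕ) : Polynomial ℚ :=
  ∑ k ∈ Ico 1 p, Polynomial.C (u k * h2 k) * (Polynomial.X ^ k * (1 + Polynomial.X) ^ (2 * (p - 1 - k)))

theorem PP_eq (p : ℕ) : ((PP p : Polynomial ℚ) : ℚ⟦X⟧) = (1 + X) ^ (2 * (p - 1)) * FF p := by
  rw [FF_eq, mul_sum, PP]
  have : ((∑ k ∈ Ico 1 p, Polynomial.C (u k * h2 k) * (Polynomial.X ^ k *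
    (1 + Polynomial.X) ^ (2 * (p - 1 - k))) : Polynomial ℚ) : ℚ⟦X⟧) =
    Polynomial.coeToPowerSeries.ringHom (∑ k ∈ Ico 1 p, Polynomial.C (u k * h2 k) * (Polynomial.X ^ k *
    (1 + Polynomial.X) ^ (2 * (p - 1 - k)))) := rfl
  rw [this, map_sum]
  refine sum_congr rfl fun k hk => ?_
  have hk' := mem_Ico.1 hk
  generalize u k * h2 k = c0
  rw [map_mul, map_mul, map_pow, map_pow, map_add, map_one]
  simp only [Polynomial.coeToPowerSeries.ringHom_apply, Polynomial.coe_C, Polynomial.coe_X]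
  have e : 2 * (p - 1) = 2 * k + 2 * (p - 1 - k) := by omega
  rw [e, pow_add]
  have h := congrArg (fun x => x ^ (2 * k)) one_add_gg
  simp only [mul_pow, one_pow] at h
  generalize C c0 = c
  linear_combination (-(c * X ^ k * (1 + X) ^ (2 * (p - 1 - k)))) * h

end PS

variable {p : ℕ} [hp : Fact p.Prime]

/-- the approximation of `σ_n`, `n = p l + r` -/
def st (p l r : ℕ) : ℚ :=
  if r = 0 then (-1) ^ l * (- (l * (p * HH p 4))) else (-1) ^ l * ((-1) ^ (r + 1) * (2 * mt p l r))

theorem neg_pow_p (h3 : 3 < p) (l : ℕ) : (-1 : ℚ) ^ (p * l) = (-1) ^ l := by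
  rw [pow_mul, Odd.neg_one_pow (Nat.odd_iff.2 (odd_of h3))]

theorem sg_st (h3 : 3 < p) {l r : ℕ} (hr : r < p) : I p 3 (sg p (p * l + r) - st p l r) := by
  unfold st
  split_ifs with h
  · subst h
    rw [add_zero]
    rcases Nat.eq_zero_or_pos l with h0 | h0
    · subst h0
      rw [mul_zero]
      have : sg p 0 = 0 := by
        unfold sg
        refine sum_eq_zero fun k hk => ?_
        unfold b
        rw [Nat.choose_eq_zero_of_lt (by have := mem_Ico.1 hk; omega)]
        simp
      rw [this]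
      simp [I.zero]
    · have h1 := sg_0 h3 h0
      refine (congrArg (I p 3) ?_).mp h1
      rw [pow_succ, neg_pow_p h3]
      ring
  · have h1 := sg_r h3 (l := l) (r := r) (by rw [mem_Ico]; omega)
    refine (congrArg (I p 3) ?_).mp h1
    rw [add_assoc, pow_add, neg_pow_p h3]
    ring

/-- the coefficients of the numerator -/
def nu (p n : ℕ) : ℚ :=
  if n < p then st p 0 n
  else if n < 2 * p then st p 1 (n - p) + 3 * st p 0 (n - p)
  else if n < 3 * p then st p 2 (n - 2 * p) + 3 * st p 1 (n - 2 * p) + 3 * st p 0 (n - 2 * p)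
  else 0

omit hp in
theorem third_diff (l r : ℕ) : st p (l + 3) r + 3 * st p (l + 2) r + 3 * st p (l + 1) r + st p l r = 0 := by
  unfold st mt
  have e1 : (-1 : ℚ) ^ (l + 3) = - (-1) ^ l := by rw [pow_add]; norm_num
  have e2 : (-1 : ℚ) ^ (l + 2) = (-1) ^ l := by rw [pow_add]; norm_num
  have e3 : (-1 : ℚ) ^ (l + 1) = - (-1) ^ l := by rw [pow_add]; norm_num
  split_ifs with h
  · rw [e1, e2, e3]; push_cast; ring
  · rw [e1, e2, e3]; push_cast; ring

/-- the coefficient of `x^n` in `F (1+x^p)^3` -/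
def kap (p n : ℕ) : ℚ := sg p n + 3 * (if p ≤ n then sg p (n - p) else 0) +
  3 * (if 2 * p ≤ n then sg p (n - 2 * p) else 0) + (if 3 * p ≤ n then sg p (n - 3 * p) else 0)

theorem kap_nu (h3 : 3 < p) (n : ℕ) : I p 3 (kap p n - nu p n) := by
  obtain ⟨l, r, hr, rfl⟩ : ∃ l r, r < p ∧ n = p * l + r :=
    ⟨n / p, n % p, Nat.mod_lt _ (by omega), (Nat.div_add_mod n p).symm⟩
  unfold kap nu
  have k3 : (3 : ℚ) ∈ Zp p := num_mem 3
  rcases l with _ | l
  · have h := sg_st h3 (l := 0) hr
    rw [mul_zero, zero_add] at h ⊢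
    rw [if_neg (by omega), if_neg (by omega), if_neg (by omega), if_pos hr]
    simpa using h
  rcases l with _ | l
  · have h := sg_st h3 (l := 1) hr
    have h' := sg_st h3 (l := 0) hr
    rw [mul_zero, zero_add] at h'
    rw [mul_one] at h
    rw [zero_add, mul_one]
    rw [if_pos (by omega), if_neg (by omega), if_neg (by omega), if_neg (by omega), if_pos (by omega),
      Nat.add_sub_cancel_left]
    refine (congrArg (I p 3) ?_).mp (h.add (h'.mulL k3))
    ring
  rcases l with _ | l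
  · have h := sg_st h3 (l := 2) hr
    have h' := sg_st h3 (l := 1) hr
    have h'' := sg_st h3 (l := 0) hr
    rw [mul_zero, zero_add] at h''
    rw [mul_one] at h'
    have e1 : p * (0 + 1 + 1) + r = 2 * p + r := by ring
    have e2 : p * 2 + r = 2 * p + r := by ring
    rw [e2] at h
    rw [e1, if_pos (by omega), if_pos (by omega), if_neg (by omega), if_neg (by omega), if_neg (by omega),
      if_pos (by omega)]
    have e3 : 2 * p + r - p = p + r := by omega
    have e4 : 2 * p + r - 2 * p = r := by omega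
    rw [e3, e4]
    refine (congrArg (I p 3) ?_).mp ((h.add (h'.mulL k3)).add (h''.mulL k3))
    ring
  · have h := sg_st h3 (l := l + 3) hr
    have h' := sg_st h3 (l := l + 2) hr
    have h'' := sg_st h3 (l := l + 1) hr
    have h''' := sg_st h3 (l := l) hr
    have hd := third_diff (p := p) l r
    have e1 : p * (l + 1 + 1 + 1) + r = p * (l + 3) + r := by ring
    have e2 : p * (l + 3) + r - p = p * (l + 2) + r := by
      have : p * (l + 3) = p * (l + 2) + p := by ring
      omega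
    have e3 : p * (l + 3) + r - 2 * p = p * (l + 1) + r := by
      have : p * (l + 3) = p * (l + 1) + 2 * p := by ring
      omega
    have e4 : p * (l + 3) + r - 3 * p = p * l + r := by
      have : p * (l + 3) = p * l + 3 * p := by ring
      omega
    have e5 : 3 * p ≤ p * (l + 3) + r := by
      have : p * (l + 3) = p * l + 3 * p := by ring
      omega
    rw [e1, if_pos (by omega), if_pos (by omega), if_pos e5, if_neg (by omega), if_neg (by omega),
      if_neg (by omega), e2, e3, e4, sub_zero]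
    refine (congrArg (I p 3) ?_).mp (((h.add (h'.mulL k3)).add (h''.mulL k3)).add h''')
    linear_combination (-1) * hd

section PS2

open PowerSeries

/-- the numerator -/
noncomputable def NN (p : ℕ) : Polynomial ℚ := ∑ n ∈ range (3 * p), Polynomial.monomial n (nu p n)

omit hp in
theorem coeff_NN (n : ℕ) : (NN p).coeff n = nu p n := by
  rw [NN, Polynomial.finsetSum_coeff]
  simp only [Polynomial.coeff_monomial]
  rw [sum_ite_eq' (range (3 * p)) n (fun n => nu p n)]
  split_ifs with h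
  · rfl
  · rw [mem_range, not_lt] at h
    unfold nu
    rw [if_neg (by omega), if_neg (by omega), if_neg (by omega)]

omit hp in
theorem coeff_K (n : ℕ) : coeff n (FF p * (1 + X ^ p) ^ 3) = kap p n := by
  have e : FF p * (1 + X ^ p) ^ 3 = FF p + (C 3 : ℚ⟦X⟧) * (X ^ p * FF p) +
      (C 3 : ℚ⟦X⟧) * (X ^ (2 * p) * FF p) + X ^ (3 * p) * FF p := by
    have : (C 3 : ℚ⟦X⟧) = 3 := map_ofNat _ 3
    rw [this]
    ring
  rw [e]
  simp only [map_add, coeff_C_mul, coeff_X_pow_mul', FF, coeff_mk]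
  rfl

/-- power series with coefficients divisible by `p^k` -/
def PI (p : ℕ) [Fact p.Prime] (k : ℕ) (f : ℚ⟦X⟧) : Prop := ∀ n, I p k (coeff n f)

theorem PI.mul {k : ℕ} {f g : ℚ⟦X⟧} (hf : PI p 0 f) (hg : PI p k g) : PI p k (f * g) := by
  intro n
  rw [coeff_mul]
  refine I.sum fun i _ => ?_
  have := (hf i.1).mul (hg i.2)
  rwa [zero_add] at this

theorem PI_one_add : PI p 0 (1 + X) := by
  intro n
  rw [I_zero_iff, map_add, coeff_one, coeff_X]
  refine add_mem ?_ ?_
  · split_ifs
    · exact one_mem _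
    · exact zero_mem _
  · split_ifs
    · exact one_mem _
    · exact zero_mem _

theorem PI_pow (k : ℕ) : PI p 0 ((1 + X) ^ k) := by
  induction k with
  | zero =>
    intro n
    rw [I_zero_iff, pow_zero, coeff_one]
    split_ifs
    · exact one_mem _
    · exact zero_mem _
  | succ k ih => rw [pow_succ]; exact ih.mul PI_one_add

end PS2

/-- **The polynomial congruence.** -/
theorem exists_E (h3 : 3 < p) : ∃ E : Polynomial ℚ, (∀ n, I p 3 (E.coeff n)) ∧
    PP p * (1 + Polynomial.X ^ p) ^ 3 = (1 + Polynomial.X) ^ (2 * (p - 1)) * NN p + E := by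
  refine ⟨PP p * (1 + Polynomial.X ^ p) ^ 3 - (1 + Polynomial.X) ^ (2 * (p - 1)) * NN p, ?_, by ring⟩
  intro n
  rw [← Polynomial.coeff_coe]
  have e : ((PP p * (1 + Polynomial.X ^ p) ^ 3 - (1 + Polynomial.X) ^ (2 * (p - 1)) * NN p :
      Polynomial ℚ) : PowerSeries ℚ) = (1 + PowerSeries.X) ^ (2 * (p - 1)) *
        (FF p * (1 + PowerSeries.X ^ p) ^ 3 - ((NN p : Polynomial ℚ) : PowerSeries ℚ)) := by
    rw [Polynomial.coe_sub, Polynomial.coe_mul, Polynomial.coe_mul, Polynomial.coe_pow, Polynomial.coe_pow,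
      Polynomial.coe_add, Polynomial.coe_add, Polynomial.coe_pow, Polynomial.coe_one, Polynomial.coe_X, PP_eq]
    ring
  rw [e]
  refine PI.mul (PI_pow _) (fun n => ?_) n
  rw [map_sub, coeff_K, Polynomial.coeff_coe, coeff_NN]
  exact kap_nu h3 n

end Pool.Agent.T2H53.HB
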