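import Pool.Agent.T2H53.HB.B3

set_option autoImplicit false

/-!
Evaluation at a root of unity.
-/

namespace Pool.Agent.T2H53.HB

open Finset Pool.Agent.R439.PL

variable {p : ℕ} [hp : Fact p.Prime]

/-- the ring `Zp + Zp z`, `z^2 = c z - 1` -/
def OO (p : ℕ) [Fact p.Prime] (c : ℤ) (z : ℂ) (hz : z ^ 2 = c * z - 1) : Subring ℂ where
  carrier := {x | ∃ a ∈ Zp p, ∃ b ∈ Zp p, x = (a : ℂ) + (b : ℂ) * z}
  mul_mem' := by
    rintro x y ⟨a, ha, b, hb, rfl⟩ ⟨a', ha', b', hb', rfl⟩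
    refine ⟨a * a' - b * b', sub_mem (mul_mem ha ha') (mul_mem hb hb'),
      a * b' + b * a' + c * (b * b'), add_mem (add_mem (mul_mem ha hb') (mul_mem hb ha'))
        (mul_mem (int_mem c) (mul_mem hb hb')), ?_⟩
    push_cast
    linear_combination ((b : ℂ) * b') * hz
  one_mem' := ⟨1, one_mem _, 0, zero_mem _, by simp⟩
  add_mem' := by
    rintro x y ⟨a, ha, b, hb, rfl⟩ ⟨a', ha', b', hb', rfl⟩
    exact ⟨a + a', add_mem ha ha', b + b', add_mem hb hb', by push_cast; ring⟩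
  zero_mem' := ⟨0, zero_mem _, 0, zero_mem _, by simp⟩
  neg_mem' := by
    rintro x ⟨a, ha, b, hb, rfl⟩
    exact ⟨-a, neg_mem ha, -b, neg_mem hb, by push_cast; ring⟩

theorem rat_mem_OO {c : ℤ} {z : ℂ} (hz : z ^ 2 = c * z - 1) {q : ℚ} (hq : q ∈ Zp p) :
    (q : ℂ) ∈ OO p c z hz := ⟨q, hq, 0, zero_mem _, by simp⟩

theorem z_mem_OO {c : ℤ} {z : ℂ} (hz : z ^ 2 = c * z - 1) : z ∈ OO p c z hz :=
  ⟨0, zero_mem _, 1, one_mem _, by simp⟩

theorem eval_E {c : ℤ} {z ζ : ℂ} (hz : z ^ 2 = c * z - 1) (hζ : ζ ∈ OO p c z hz) {E : Polynomial ℚ}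
    (hE : ∀ n, I p 3 (E.coeff n)) : ∃ x ∈ OO p c z hz, Polynomial.aeval ζ E = (p : ℂ) ^ 3 * x := by
  choose e he1 he2 using hE
  refine ⟨∑ i ∈ range (E.natDegree + 1), (e i : ℂ) * ζ ^ i, sum_mem fun i _ =>
    mul_mem (rat_mem_OO hz (he1 i)) (pow_mem hζ i), ?_⟩
  rw [Polynomial.aeval_eq_sum_range, mul_sum]
  refine sum_congr rfl fun i _ => ?_
  rw [he2 i, Algebra.smul_def]
  simp only [eq_ratCast]
  push_cast
  ring

omit hp in
theorem eval_P {m : ℕ} {ζ : ℂ} (hζ0 : ζ ≠ 0) (hm : (m : ℂ) ≠ 0) (hζ : (1 + ζ) ^ 2 = m * ζ) :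
    Polynomial.aeval ζ (PP p) = (1 + ζ) ^ (2 * (p - 1)) *
      ((∑ k ∈ Ico 1 p, u k * h2 k / (m : ℚ) ^ k : ℚ) : ℂ) := by
  rw [PP, map_sum]
  push_cast
  rw [mul_sum]
  refine sum_congr rfl fun k hk => ?_
  have hk' := mem_Ico.1 hk
  simp only [map_mul, map_pow, map_add, map_one, Polynomial.aeval_X, Polynomial.aeval_C, eq_ratCast]
  have e : 2 * (p - 1) = 2 * k + 2 * (p - 1 - k) := by omega
  rw [e, pow_add, pow_mul (1 + ζ) 2 k, hζ, mul_pow]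
  have := pow_ne_zero k hm
  field_simp

omit hp in
theorem sum_three (f : ℕ → ℂ) : ∑ n ∈ range (3 * p), f n =
    ∑ r ∈ range p, (f r + f (p + r) + f (2 * p + r)) := by
  rw [show 3 * p = 2 * p + p by ring, sum_range_add, two_mul, sum_range_add, sum_add_distrib,
    sum_add_distrib]

/-- `β_r` -/
def be (p r : ℕ) : ℚ := - (3 * p / (r : ℚ) ^ 4) - p ^ 2 / (r : ℚ) ^ 5

/-- `γ_r` -/
def ga (p r : ℕ) : ℚ := 5 * p ^ 2 / (r : ℚ) ^ 5

omit hp in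
theorem eval_N (h3 : 3 < p) {ζ y : ℂ} (hy : ζ ^ p = y) : Polynomial.aeval ζ (NN p) =
    ∑ r ∈ Ico 1 p, (-1) ^ (r + 1) * ζ ^ r * (2 * ((1 / (r : ℚ) ^ 3 : ℚ) * (1 + y) ^ 2 -
      (be p r : ℂ) * y * (1 + y) - (ga p r : ℂ) * y * (1 - y))) + ((p * HH p 4 : ℚ) : ℂ) * (y + y ^ 2) := by
  rw [NN, map_sum]
  simp only [Polynomial.aeval_monomial, eq_ratCast]
  rw [sum_three]
  have h1 : ∀ r ∈ range p, ((nu p r : ℂ) * ζ ^ r + (nu p (p + r) : ℂ) * ζ ^ (p + r) +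
      (nu p (2 * p + r) : ℂ) * ζ ^ (2 * p + r)) = ζ ^ r * ((st p 0 r : ℂ) + ((st p 1 r : ℂ) +
        3 * (st p 0 r : ℂ)) * y + ((st p 2 r : ℂ) + 3 * (st p 1 r : ℂ) + 3 * (st p 0 r : ℂ)) * y ^ 2) := by
    intro r hr
    have hr' := mem_range.1 hr
    have e1 : nu p r = st p 0 r := by unfold nu; rw [if_pos hr']
    have e2 : nu p (p + r) = st p 1 r + 3 * st p 0 r := by
      unfold nu
      rw [if_neg (by omega), if_pos (by omega), Nat.add_sub_cancel_left]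
    have e3 : nu p (2 * p + r) = st p 2 r + 3 * st p 1 r + 3 * st p 0 r := by
      unfold nu
      rw [if_neg (by omega), if_neg (by omega), if_pos (by omega), Nat.add_sub_cancel_left]
    rw [e1, e2, e3, pow_add, pow_add, show 2 * p = p * 2 by ring, pow_mul, hy]
    push_cast
    ring
  rw [sum_congr rfl h1, range_eq_Ico, sum_eq_sum_Ico_succ_bot (by omega), zero_add, add_comm]
  congr 1
  · refine sum_congr rfl fun r hr => ?_
    have hr' := mem_Ico.1 hr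
    have e0 : r ≠ 0 := by omega
    unfold st mt be ga
    simp only [if_neg e0]
    push_cast
    ring
  · unfold st
    simp only [if_true]
    push_cast
    ring

/-- real part of `z^s (1 - z')` and so on -/
theorem re_lin {z : ℂ} {c : ℚ} (hre : z.re = (c : ℝ) / 2) (a b : ℚ) :
    ((a : ℂ) + (b : ℂ) * z).re = ((a + b * c / 2 : ℚ) : ℝ) := by
  simp only [Complex.add_re, Complex.mul_re, Complex.ratCast_re, Complex.ratCast_im, hre]
  push_cast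
  ring

/-- the value of the sum over `k` in terms of the sum over `r` -/
theorem eval_main (h3 : 3 < p) {m N : ℕ} (hm1 : 1 ≤ m) (hm4 : m ≤ 4) (hN : 0 < N)
    (hpN : (N : ℤ) ∣ (p : ℤ) * p - 1) {z z' : ℂ} (hzz : z * z' = 1) (hzs : z + z' = 2 - m)
    (hre : z.re = (2 - m) / 2) (hzN : z ^ N = 1) (hzp : z ^ p = z ∨ z ^ p = z')
    (A B : ℕ → ℚ) (hAB : ∀ s, 1 ≤ s → s ≤ N → z ^ s = (A s : ℂ) + (B s : ℂ) * z) :
    I p 3 (∑ k ∈ Ico 1 p, u k * h2 k / (m : ℚ) ^ k -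
      (∑ r ∈ Ico 1 p, (-2) * (1 / (r : ℚ) ^ 3 * ((A (sN p N r) - B (sN p N r)) / 2) -
        be p r * ((2 * A (sN p N r) + (2 - m) * B (sN p N r)) / (2 * m)) +
        ga p r * (B (sN p N r) * (4 - m) / (2 * m))) + p * HH p 4 / m)) := by
  have hmU : U p (m : ℚ) := U_nat (by omega) (by
    have : p ≠ 4 := by rintro rfl; exact absurd hp.out (by norm_num)
    omega)
  have hm0 : (m : ℂ) ≠ 0 := by
    have : m ≠ 0 := by omega
    exact_mod_cast this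
  have hodd := odd_of h3
  have hOdd : Odd p := Nat.odd_iff.2 hodd
  obtain ⟨c, hc⟩ : ∃ c : ℤ, c = 2 - m := ⟨_, rfl⟩
  have hcC : (c : ℂ) = 2 - m := by rw [hc]; push_cast; ring
  have hz : z ^ 2 = c * z - 1 := by
    rw [hcC]
    linear_combination (-1 : ℂ) * hzz + z * hzs
  have hz0 : z ≠ 0 := by rintro rfl; rw [zero_mul] at hzz; exact zero_ne_one hzz
  -- p^2 = 1 mod N
  have hzpp : z ^ (p * p) = z := by
    obtain ⟨q, hq⟩ := hpN
    have hpp : 1 ≤ p * p := Nat.mul_pos (by omega) (by omega)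
    have hq0 : 0 ≤ q := by
      by_contra hneg
      have h1 : (N : ℤ) * q < 0 := by
        have : (0 : ℤ) < N := by exact_mod_cast hN
        nlinarith
      have h2 : (1 : ℤ) ≤ (p : ℤ) * p := by exact_mod_cast hpp
      omega
    obtain ⟨q', rfl⟩ := Int.eq_ofNat_of_zero_le hq0
    have h5 : p * p = N * q' + 1 := by
      have : ((p * p : ℕ) : ℤ) = ((N * q' + 1 : ℕ) : ℤ) := by push_cast; linarith
      exact_mod_cast this
    rw [h5, pow_add, pow_mul, hzN, one_pow, one_mul, pow_one]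
  obtain ⟨ζ, hζ⟩ : ∃ ζ : ℂ, ζ = - z ^ p := ⟨_, rfl⟩
  have hζp : ζ ^ p = - z := by
    rw [hζ, hOdd.neg_pow, ← pow_mul, hzpp]
  have hz'O : z' ∈ OO p c z hz := by
    have : z' = (c : ℂ) - z := by rw [hcC, ← hzs]; ring
    rw [this]
    exact sub_mem (by exact_mod_cast rat_mem_OO hz (int_mem (p := p) c)) (z_mem_OO hz)
  have hζO : ζ ∈ OO p c z hz := by
    rw [hζ]; exact neg_mem (pow_mem (z_mem_OO hz) p)
  -- (1+ζ)^2 = m ζ and the inverse of ζ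
  have hζ2 : (1 + ζ) ^ 2 = m * ζ ∧ ∃ ζ' ∈ OO p c z hz, ζ * ζ' = 1 := by
    have hz'2 : z' ^ 2 = (2 - m) * z' - 1 := by linear_combination (-1 : ℂ) * hzz + z' * hzs
    rcases hzp with h | h
    · rw [hζ, h]
      refine ⟨?_, - z', neg_mem hz'O, by linear_combination hzz⟩
      rw [hcC] at hz
      linear_combination hz
    · rw [hζ, h]
      refine ⟨?_, - z, neg_mem (z_mem_OO hz), by linear_combination hzz⟩
      linear_combination hz'2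
  obtain ⟨hζ2, ζ', hζ'O, hζζ'⟩ := hζ2
  have hζ0 : ζ ≠ 0 := by rintro rfl; rw [zero_mul] at hζζ'; exact zero_ne_one hζζ'
  obtain ⟨E, hE, hEq⟩ := exists_E h3
  have h1 := congrArg (Polynomial.aeval ζ) hEq
  rw [map_mul, map_add, map_mul, map_pow, map_pow, map_add, map_add, map_pow, map_one, Polynomial.aeval_X,
    hζp, eval_P hζ0 hm0 hζ2, eval_N h3 hζp] at h1
  obtain ⟨x, hx, hxE⟩ := eval_E hz hζO hE
  rw [hxE] at h1
  -- inverses
  have hone : (1 - z) * (1 - z') = m := by linear_combination hzz - hzs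
  have h1z : 1 - z ≠ 0 := by
    intro h; rw [h, zero_mul] at hone; exact hm0 hone.symm
  have h1ζ : 1 + ζ ≠ 0 := by
    intro h; rw [h] at hζ2
    exact (mul_ne_zero hm0 hζ0) (by rw [← hζ2]; ring)
  obtain ⟨W, hW, hWm⟩ : ∃ W ∈ OO p c z hz, W * (1 + ζ) ^ (2 * (p - 1)) = 1 := by
    refine ⟨((((m : ℚ)⁻¹ : ℚ) : ℂ) * ζ') ^ (p - 1), pow_mem (mul_mem (rat_mem_OO hz hmU.2.2) hζ'O) _, ?_⟩
    rw [pow_mul, hζ2, ← mul_pow]
    have : (((m : ℚ)⁻¹ : ℚ) : ℂ) * ζ' * (m * ζ) = 1 := by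
      push_cast
      field_simp
      linear_combination hζζ'
    rw [this, one_pow]
  obtain ⟨V, hV, hVm⟩ : ∃ V ∈ OO p c z hz, V * (1 - z) = 1 := by
    refine ⟨(((m : ℚ)⁻¹ : ℚ) : ℂ) * (1 - z'), mul_mem (rat_mem_OO hz hmU.2.2) (sub_mem (one_mem _) hz'O), ?_⟩
    push_cast
    field_simp
    linear_combination hone
  obtain ⟨a1, ha1, b1, hb1, hX⟩ : x * W * V ^ 3 ∈ OO p c z hz := mul_mem (mul_mem hx hW) (pow_mem hV 3)
  have hz1 : z ^ 2 = (2 - m) * z - 1 := by rw [hz, hcC]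
  have g1 : (1 - z) ^ 2 = - (m * z) := by linear_combination hz1
  have g2 : (1 - z) * (z - z') = m * (1 + z) := by linear_combination hzz - hzs - hz1
  -- the main identity in ℂ
  obtain ⟨S, hS⟩ : ∃ S : ℚ, S = ∑ k ∈ Ico 1 p, u k * h2 k / (m : ℚ) ^ k := ⟨_, rfl⟩
  rw [← hS] at h1 ⊢
  have h4 : ∀ r ∈ Ico 1 p, (-1 : ℂ) ^ (r + 1) * ζ ^ r = - z ^ sN p N r := by
    intro r _
    have e1 : (-1 : ℂ) ^ (r + 1) * ζ ^ r = - z ^ (p * r) := by
      rw [hζ, neg_pow (z ^ p) r, ← pow_mul, pow_succ]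
      have : ((-1 : ℂ) ^ r) * (-1) ^ r = 1 := by rw [← mul_pow]; norm_num
      linear_combination (- z ^ (p * r)) * this
    rw [e1]
    congr 1
    obtain ⟨q, hq⟩ := sN_mod (p := p) hN r
    have h5 : z ^ ((sN p N r : ℤ)) = z ^ ((p * r : ℕ) : ℤ) := by
      have : (sN p N r : ℤ) = ((p * r : ℕ) : ℤ) + N * q := by push_cast; linarith
      rw [this, zpow_add₀ hz0, zpow_mul, zpow_natCast z N, hzN, one_zpow, mul_one]
    rw [zpow_natCast, zpow_natCast] at h5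
    exact h5.symm
  have h6 : (S : ℂ) - (∑ r ∈ Ico 1 p, (-2) * (((A (sN p N r) : ℂ) + (B (sN p N r) : ℂ) * z) *
      ((1 / (r : ℚ) ^ 3 : ℚ) * ((1 - z') / m) - (be p r : ℂ) / m - (ga p r : ℂ) * (z - z') / m ^ 2)) +
        ((p * HH p 4 : ℚ) : ℂ) / m) = (p : ℂ) ^ 3 * ((a1 : ℂ) + (b1 : ℂ) * z) := by
    rw [← hX]
    have h7 : ∑ r ∈ Ico 1 p, (-1 : ℂ) ^ (r + 1) * ζ ^ r * (2 * ((1 / (r : ℚ) ^ 3 : ℚ) * (1 + -z) ^ 2 -
      (be p r : ℂ) * (-z) * (1 + -z) - (ga p r : ℂ) * (-z) * (1 - -z))) =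
      (1 - z) ^ 3 * ∑ r ∈ Ico 1 p, (-2) * (((A (sN p N r) : ℂ) + (B (sN p N r) : ℂ) * z) *
      ((1 / (r : ℚ) ^ 3 : ℚ) * ((1 - z') / m) - (be p r : ℂ) / m - (ga p r : ℂ) * (z - z') / m ^ 2)) := by
      rw [mul_sum]
      refine sum_congr rfl fun r hr => ?_
      rw [h4 r hr, hAB _ (sN_pos N r) (sN_le hN r)]
      generalize (A (sN p N r) : ℂ) + (B (sN p N r) : ℂ) * z = T
      generalize ((1 / (r : ℚ) ^ 3 : ℚ) : ℂ) = α
      generalize (be p r : ℂ) = β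
      generalize (ga p r : ℂ) = γ
      have f1 : (1 - z) ^ 3 * ((1 - z') / m) = (1 - z) ^ 2 := by
        rw [← mul_div_assoc, div_eq_iff hm0]
        linear_combination (1 - z) ^ 2 * hone
      have f2 : (1 - z) ^ 3 / m = - z * (1 - z) := by
        rw [div_eq_iff hm0]
        linear_combination (1 - z) * g1
      have f3 : (1 - z) ^ 3 * (z - z') / m ^ 2 = - z * (1 + z) := by
        rw [div_eq_iff (pow_ne_zero 2 hm0)]
        linear_combination ((1 - z) * (z - z')) * g1 + (-(m * z)) * g2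
      linear_combination (2 * T * α) * f1 - (2 * T * β) * f2 - (2 * T * γ) * f3
    rw [h7] at h1
    generalize ∑ r ∈ Ico 1 p, (-2) * (((A (sN p N r) : ℂ) + (B (sN p N r) : ℂ) * z) *
      ((1 / (r : ℚ) ^ 3 : ℚ) * ((1 - z') / m) - (be p r : ℂ) / m - (ga p r : ℂ) * (z - z') / m ^ 2)) = R at *
    generalize ((p * HH p 4 : ℚ) : ℂ) = h at *
    have h8 : (S : ℂ) * (1 - z) ^ 3 = (1 - z) ^ 3 * R + h * (-z + z ^ 2) + (p : ℂ) ^ 3 * (x * W) := by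
      linear_combination W * h1 - ((S : ℂ) * (1 - z) ^ 3 - ((1 - z) ^ 3 * R + h * (-z + z ^ 2))) * hWm
    have V3 : V ^ 3 * (1 - z) ^ 3 = 1 := by rw [← mul_pow, hVm, one_pow]
    have hh : V ^ 3 * (-z + z ^ 2) = 1 / m := by
      rw [eq_div_iff hm0]
      linear_combination V3 - V ^ 3 * (1 - z) * g1
    linear_combination V ^ 3 * h8 - ((S : ℂ) - R) * V3 + h * hh
  -- rational form
  have hm0Q : (m : ℚ) ≠ 0 := hmU.1
  obtain ⟨d0, hd0⟩ : ∃ d0 : ℕ → ℚ, ∀ r, d0 r = 1 / (r : ℚ) ^ 3 * (1 - c) / m - be p r / m + ga p r * c / m ^ 2 :=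
    ⟨_, fun _ => rfl⟩
  obtain ⟨d1, hd1⟩ : ∃ d1 : ℕ → ℚ, ∀ r, d1 r = 1 / (r : ℚ) ^ 3 / m - 2 * ga p r / m ^ 2 := ⟨_, fun _ => rfl⟩
  obtain ⟨U0, hU0⟩ : ∃ U0 : ℚ, U0 = S - (∑ r ∈ Ico 1 p, (-2) * (A (sN p N r) * d0 r - B (sN p N r) * d1 r) +
    p * HH p 4 / m) := ⟨_, rfl⟩
  obtain ⟨V0, hV0⟩ : ∃ V0 : ℚ, V0 = - ∑ r ∈ Ico 1 p, (-2) * (A (sN p N r) * d1 r + B (sN p N r) * d0 r +
    c * B (sN p N r) * d1 r) := ⟨_, rfl⟩
  have hz' : z' = c - z := by rw [hcC, ← hzs]; ring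
  have h9 : (S : ℂ) - (∑ r ∈ Ico 1 p, (-2) * (((A (sN p N r) : ℂ) + (B (sN p N r) : ℂ) * z) *
      ((1 / (r : ℚ) ^ 3 : ℚ) * ((1 - z') / m) - (be p r : ℂ) / m - (ga p r : ℂ) * (z - z') / m ^ 2)) +
        ((p * HH p 4 : ℚ) : ℂ) / m) = (U0 : ℂ) + (V0 : ℂ) * z := by
    have h10 : ∑ r ∈ Ico 1 p, (-2) * (((A (sN p N r) : ℂ) + (B (sN p N r) : ℂ) * z) *
      ((1 / (r : ℚ) ^ 3 : ℚ) * ((1 - z') / m) - (be p r : ℂ) / m - (ga p r : ℂ) * (z - z') / m ^ 2)) =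
      ((∑ r ∈ Ico 1 p, (-2) * (A (sN p N r) * d0 r - B (sN p N r) * d1 r) : ℚ) : ℂ) +
      ((∑ r ∈ Ico 1 p, (-2) * (A (sN p N r) * d1 r + B (sN p N r) * d0 r +
        c * B (sN p N r) * d1 r) : ℚ) : ℂ) * z := by
      rw [Rat.cast_sum, Rat.cast_sum, sum_mul, ← sum_add_distrib]
      refine sum_congr rfl fun r _ => ?_
      rw [hd0, hd1, hz']
      generalize A (sN p N r) = a
      generalize B (sN p N r) = b'
      generalize 1 / (r : ℚ) ^ 3 = α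
      generalize be p r = β
      generalize ga p r = γ
      push_cast
      field_simp
      linear_combination (-1 * (b' : ℂ) * (α * m - 2 * γ)) * hz
    rw [h10, hU0, hV0]
    push_cast
    ring
  rw [h9] at h6
  have h11 := congrArg Complex.re h6
  have hreQ : z.re = (((c : ℚ)) : ℝ) / 2 := by rw [hre, hc]; push_cast; ring
  rw [re_lin hreQ] at h11
  have h12 : ((p : ℂ) ^ 3 * ((a1 : ℂ) + (b1 : ℂ) * z)).re = (((p : ℚ) ^ 3 * (a1 + b1 * c / 2) : ℚ) : ℝ) := by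
    have e : ((p : ℂ) ^ 3 * ((a1 : ℂ) + (b1 : ℂ) * z)) = (((p : ℚ) ^ 3 * a1 : ℚ) : ℂ) +
      (((p : ℚ) ^ 3 * b1 : ℚ) : ℂ) * z := by push_cast; ring
    rw [e, re_lin hreQ]
    congr 1
    ring
  rw [h12] at h11
  have h13 : U0 + V0 * c / 2 = (p : ℚ) ^ 3 * (a1 + b1 * c / 2) := by exact_mod_cast h11
  refine ⟨a1 + b1 * c / 2, add_mem ha1 (mem_div (mul_mem hb1 (int_mem c)) (U2 h3)), ?_⟩
  rw [← h13, hU0, hV0]
  have h14 : ∑ r ∈ Ico 1 p, (-2) * (1 / (r : ℚ) ^ 3 * ((A (sN p N r) - B (sN p N r)) / 2) -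
        be p r * ((2 * A (sN p N r) + (2 - m) * B (sN p N r)) / (2 * m)) +
        ga p r * (B (sN p N r) * (4 - m) / (2 * m))) =
      ∑ r ∈ Ico 1 p, (-2) * (A (sN p N r) * d0 r - B (sN p N r) * d1 r) +
      (∑ r ∈ Ico 1 p, (-2) * (A (sN p N r) * d1 r + B (sN p N r) * d0 r +
        c * B (sN p N r) * d1 r)) * c / 2 := by
    rw [mul_div_assoc, sum_mul, ← sum_add_distrib]
    refine sum_congr rfl fun r _ => ?_
    rw [hd0, hd1]
    have hcQ : (c : ℚ) = 2 - m := by rw [hc]; push_cast; ring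
    rw [hcQ]
    generalize A (sN p N r) = a
    generalize B (sN p N r) = b'
    generalize 1 / (r : ℚ) ^ 3 = α
    generalize be p r = β
    generalize ga p r = γ
    field_simp
    ring
  rw [h14]
  ring

end Pool.Agent.T2H53.HB
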