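import Pool.Agent.T2H53.HB.B4

set_option autoImplicit false

/-!
The four evaluations.
-/

namespace Pool.Agent.T2H53.HB

open Finset Pool.Agent.R439.PL

variable {p : ℕ} [hp : Fact p.Prime]

omit hp in
/-- the power `z^p` -/
theorem z_pow_p {z z' : ℂ} (hzz : z * z' = 1) {N : ℕ} (hzN : z ^ N = 1)
    (h : p % N = 1 ∨ p % N = N - 1) (hN : 1 < N) : z ^ p = z ∨ z ^ p = z' := by
  have h1 : z ^ p = z ^ (p % N) := by
    conv_lhs => rw [← Nat.mod_add_div p N]
    rw [pow_add, pow_mul, hzN, one_pow, mul_one]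
  rcases h with h | h
  · left; rw [h1, h, pow_one]
  · right
    rw [h1, h]
    have h2 : z ^ (N - 1) * z = 1 := by rw [← pow_succ, Nat.sub_add_cancel (by omega), hzN]
    calc z ^ (N - 1) = z ^ (N - 1) * (z * z') := by rw [hzz, mul_one]
      _ = z' := by rw [← mul_assoc, h2, one_mul]

theorem p_mod3 (h3 : 3 < p) : p % 3 = 1 ∨ p % 3 = 2 := by
  have : ¬ 3 ∣ p := by
    intro h
    rcases (Nat.dvd_prime hp.out).1 h with h | h <;> omega
  omega

theorem p_mod4 (h3 : 3 < p) : p % 4 = 1 ∨ p % 4 = 3 := by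
  have := odd_of h3
  omega

theorem p_mod6 (h3 : 3 < p) : p % 6 = 1 ∨ p % 6 = 5 := by
  have := odd_of h3
  have := p_mod3 h3
  omega

omit hp in
theorem dvd_of_mod {N : ℕ} (hN : 1 < N) (h : p % N = 1 ∨ p % N = N - 1) : (N : ℤ) ∣ (p : ℤ) * p - 1 := by
  have h0 := Nat.mod_add_div p N
  rcases h with h | h
  · rw [h] at h0
    obtain ⟨q, hq⟩ : ∃ q : ℕ, q = p / N := ⟨_, rfl⟩
    rw [← hq] at h0
    refine ⟨2 * q + N * q * q, ?_⟩
    rw [← h0]; push_cast; ring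
  · rw [h] at h0
    obtain ⟨q, hq⟩ : ∃ q : ℕ, q = p / N := ⟨_, rfl⟩
    rw [← hq] at h0
    refine ⟨(N - 2) + 2 * (N - 1) * q + N * q * q, ?_⟩
    rw [← h0]; push_cast [Nat.cast_sub (show 1 ≤ N by omega)]; ring

theorem three_dvd (h3 : 3 < p) : (3 : ℤ) ∣ (p : ℤ) * p - 1 := by
  exact_mod_cast dvd_of_mod (N := 3) (by norm_num) (p_mod3 h3)

theorem four_dvd (h3 : 3 < p) : (4 : ℤ) ∣ (p : ℤ) * p - 1 := by
  exact_mod_cast dvd_of_mod (N := 4) (by norm_num) (p_mod4 h3)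

theorem six_dvd (h3 : 3 < p) : (6 : ℤ) ∣ (p : ℤ) * p - 1 := by
  exact_mod_cast dvd_of_mod (N := 6) (by norm_num) (p_mod6 h3)

/-- `z = (c + i √(4 - c²)) / 2` -/
theorem exists_z (c : ℝ) (hc : c ^ 2 ≤ 4) : ∃ z z' : ℂ, z * z' = 1 ∧ z + z' = (c : ℂ) ∧ z.re = c / 2 := by
  refine ⟨⟨c / 2, Real.sqrt (4 - c ^ 2) / 2⟩, ⟨c / 2, - Real.sqrt (4 - c ^ 2) / 2⟩, ?_, ?_, rfl⟩
  · have h : Real.sqrt (4 - c ^ 2) * Real.sqrt (4 - c ^ 2) = 4 - c ^ 2 := Real.mul_self_sqrt (by linarith)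
    apply Complex.ext
    · simp only [Complex.mul_re, Complex.one_re]
      nlinarith
    · simp only [Complex.mul_im, Complex.one_im]
      ring
  · apply Complex.ext
    · simp only [Complex.add_re, Complex.ofReal_re]; ring
    · simp only [Complex.add_im, Complex.ofReal_im]; ring

theorem val4 (h3 : 3 < p) : I p 3 (∑ k ∈ Ico 1 p, u k * h2 k / ((4 : ℕ) : ℚ) ^ k -
    (- 2 * Q p 2 + p * HH p 4 / 4)) := by
  obtain ⟨A, hA⟩ : ∃ A : ℕ → ℚ, ∀ s, A s = if s = 2 then 1 else 0 := ⟨_, fun _ => rfl⟩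
  obtain ⟨B, hB⟩ : ∃ B : ℕ → ℚ, ∀ s, B s = if s = 1 then 1 else 0 := ⟨_, fun _ => rfl⟩
  have h := eval_main (p := p) h3 (m := 4) (N := 2) (by norm_num) le_rfl two_pos
    (by exact_mod_cast two_dvd h3) (z := -1) (z' := -1) (by norm_num) (by norm_num) (by norm_num)
    (by norm_num) (Or.inl (Odd.neg_one_pow (Nat.odd_iff.2 (odd_of h3)))) A B (by
      intro s h1 h2
      rw [hA, hB]
      interval_cases s <;> norm_num)
  refine (congrArg (I p 3) ?_).mp h
  congr 1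
  rw [Q, mul_sum]
  congr 1
  refine sum_congr rfl fun r _ => ?_
  have h5 := sN_pos (p := p) 2 r
  have h6 := sN_le (p := p) (N := 2) two_pos r
  unfold Qf w be ga
  rw [hA, hB]
  obtain ⟨s, hs⟩ : ∃ s, s = sN p 2 r := ⟨_, rfl⟩
  rw [← hs] at h5 h6 ⊢
  interval_cases s <;> (push_cast; norm_num; try ring)

theorem val3 (h3 : 3 < p) : I p 3 (∑ k ∈ Ico 1 p, u k * h2 k / ((3 : ℕ) : ℚ) ^ k -
    (- Q p 3 + p * HH p 4 / 3)) := by
  obtain ⟨A, hA⟩ : ∃ A : ℕ → ℚ, ∀ s, A s = if s = 2 then -1 else if s = 3 then 1 else 0 := ⟨_, fun _ => rfl⟩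
  obtain ⟨B, hB⟩ : ∃ B : ℕ → ℚ, ∀ s, B s = if s = 1 then 1 else if s = 2 then -1 else 0 := ⟨_, fun _ => rfl⟩
  obtain ⟨z, z', hzz, hzs, hre⟩ := exists_z (-1) (by norm_num)
  have hz2 : z ^ 2 = - z - 1 := by
    push_cast at hzs
    linear_combination (-1 : ℂ) * hzz + z * hzs
  have hz3 : z ^ 3 = 1 := by linear_combination (z - 1) * hz2
  have h := eval_main (p := p) h3 (m := 3) (N := 3) (by norm_num) (by norm_num) three_pos
    (by exact_mod_cast three_dvd h3) hzz (by rw [hzs]; push_cast; norm_num) (by rw [hre]; push_cast; norm_num)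
    hz3 (z_pow_p hzz hz3 (p_mod3 h3) (by norm_num)) A B (by
      intro s h1 h2
      rw [hA, hB]
      interval_cases s
      · norm_num
      · rw [hz2]; norm_num; ring
      · rw [hz3]; norm_num)
  refine (congrArg (I p 3) ?_).mp h
  congr 1
  rw [Q, ← sum_neg_distrib]
  congr 1
  refine sum_congr rfl fun r _ => ?_
  have h5 := sN_pos (p := p) 3 r
  have h6 := sN_le (p := p) (N := 3) three_pos r
  unfold Qf w be ga
  rw [hA, hB]
  obtain ⟨s, hs⟩ : ∃ s, s = sN p 3 r := ⟨_, rfl⟩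
  rw [← hs] at h5 h6 ⊢
  interval_cases s <;> (push_cast; norm_num; try ring)

theorem val2 (h3 : 3 < p) : I p 3 (∑ k ∈ Ico 1 p, u k * h2 k / ((2 : ℕ) : ℚ) ^ k -
    (- (Q p 4 - Q p 2) + p * HH p 4 / 2)) := by
  obtain ⟨A, hA⟩ : ∃ A : ℕ → ℚ, ∀ s, A s = if s = 2 then -1 else if s = 4 then 1 else 0 := ⟨_, fun _ => rfl⟩
  obtain ⟨B, hB⟩ : ∃ B : ℕ → ℚ, ∀ s, B s = if s = 1 then 1 else if s = 3 then -1 else 0 := ⟨_, fun _ => rfl⟩
  obtain ⟨z, z', hzz, hzs, hre⟩ := exists_z 0 (by norm_num)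
  have hz2 : z ^ 2 = - 1 := by
    push_cast at hzs
    linear_combination (-1 : ℂ) * hzz + z * hzs
  have hz3 : z ^ 3 = -z := by linear_combination z * hz2
  have hz4 : z ^ 4 = 1 := by linear_combination (z ^ 2 - 1) * hz2
  have h := eval_main (p := p) h3 (m := 2) (N := 4) (by norm_num) (by norm_num) four_pos
    (by exact_mod_cast four_dvd h3) hzz (by rw [hzs]; push_cast; norm_num) (by rw [hre]; push_cast; norm_num)
    hz4 (z_pow_p hzz hz4 (p_mod4 h3) (by norm_num)) A B (by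
      intro s h1 h2
      rw [hA, hB]
      interval_cases s
      · norm_num
      · rw [hz2]; norm_num
      · rw [hz3]; norm_num
      · rw [hz4]; norm_num)
  refine (congrArg (I p 3) ?_).mp h
  congr 1
  rw [Q, Q, ← sum_sub_distrib, ← sum_neg_distrib]
  congr 1
  refine sum_congr rfl fun r _ => ?_
  have h5 := sN_pos (p := p) 4 r
  have h6 := sN_le (p := p) (N := 4) four_pos r
  have h7 := sN_dvd (p := p) (M := 4) (N := 2) (r := r) two_pos four_pos (by norm_num)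
  unfold Qf w be ga
  rw [hA, hB, h7]
  obtain ⟨s, hs⟩ : ∃ s, s = sN p 4 r := ⟨_, rfl⟩
  rw [← hs] at h5 h6 ⊢
  interval_cases s <;> (push_cast; norm_num; try ring)

theorem val1 (h3 : 3 < p) : I p 3 (∑ k ∈ Ico 1 p, u k * h2 k / ((1 : ℕ) : ℚ) ^ k -
    (- (Q p 6 - Q p 2 - Q p 3) + p * HH p 4)) := by
  obtain ⟨A, hA⟩ : ∃ A : ℕ → ℚ, ∀ s, A s = if s = 2 then -1 else if s = 3 then -1 else if s = 5 then 1
    else if s = 6 then 1 else 0 := ⟨_, fun _ => rfl⟩
  obtain ⟨B, hB⟩ : ∃ B : ℕ → ℚ, ∀ s, B s = if s = 1 then 1 else if s = 2 then 1 else if s = 4 then -1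
    else if s = 5 then -1 else 0 := ⟨_, fun _ => rfl⟩
  obtain ⟨z, z', hzz, hzs, hre⟩ := exists_z 1 (by norm_num)
  have hz2 : z ^ 2 = z - 1 := by
    push_cast at hzs
    linear_combination (-1 : ℂ) * hzz + z * hzs
  have hz3 : z ^ 3 = -1 := by linear_combination (z + 1) * hz2
  have hz4 : z ^ 4 = -z := by linear_combination z * hz3
  have hz5 : z ^ 5 = 1 - z := by linear_combination z ^ 2 * hz3 - hz2
  have hz6 : z ^ 6 = 1 := by linear_combination (z ^ 3 - 1) * hz3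
  have h := eval_main (p := p) h3 (m := 1) (N := 6) (by norm_num) (by norm_num) (by norm_num)
    (by exact_mod_cast six_dvd h3) hzz (by rw [hzs]; push_cast; norm_num) (by rw [hre]; push_cast; norm_num)
    hz6 (z_pow_p hzz hz6 (p_mod6 h3) (by norm_num)) A B (by
      intro s h1 h2
      rw [hA, hB]
      interval_cases s
      · norm_num
      · rw [hz2]; norm_num; ring
      · rw [hz3]; norm_num
      · rw [hz4]; norm_num
      · rw [hz5]; norm_num; ring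
      · rw [hz6]; norm_num)
  refine (congrArg (I p 3) ?_).mp h
  congr 1
  rw [Q, Q, Q, ← sum_sub_distrib, ← sum_sub_distrib, ← sum_neg_distrib]
  congr 1
  · refine sum_congr rfl fun r _ => ?_
    have h5 := sN_pos (p := p) 6 r
    have h6 := sN_le (p := p) (N := 6) (by norm_num) r
    have h7 := sN_dvd (p := p) (M := 6) (N := 2) (r := r) two_pos (by norm_num) (by norm_num)
    have h8 := sN_dvd (p := p) (M := 6) (N := 3) (r := r) three_pos (by norm_num) (by norm_num)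
    unfold Qf w be ga
    rw [hA, hB, h7, h8]
    obtain ⟨s, hs⟩ : ∃ s, s = sN p 6 r := ⟨_, rfl⟩
    rw [← hs] at h5 h6 ⊢
    interval_cases s <;> (push_cast; norm_num; try ring)
  · push_cast; ring

/-- `p H_{p-1}^{(4)}` and the Bernoulli number -/
theorem pH4_bern (h3 : 3 < p) : I p 3 (p * HH p 4 - 4 / 5 * (p ^ 2 * bernoulli (p - 5))) := by
  have h5 : 5 ≤ p := by
    have : p ≠ 4 := by rintro rfl; exact absurd hp.out (by norm_num)
    omega
  rcases Nat.eq_or_lt_of_le h5 with h | h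
  · subst h
    have h4 : HH 5 4 = 22369 / 20736 := by
      unfold HH
      simp only [Finset.sum_Ico_eq_sum_range, Finset.sum_range_succ, Finset.sum_range_zero]
      norm_num
    refine ⟨-2423 / 20736, mem23 h3 (-2423) 8 4 (by norm_num), ?_⟩
    rw [h4]
    norm_num
  · have h7 : 7 ≤ p := by
      have : p ≠ 6 := by rintro rfl; exact absurd hp.out (by norm_num)
      omega
    refine (congrArg (I p 3) ?_).mp ((I_p (p := p)).mul (H4_bern h7 (two_dvd h3)))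
    ring

theorem W_mem (h3 : 3 < p) : HH p 1 / p ^ 2 ∈ Zp p := by
  have h1 := (H2_W h3).mem
  obtain ⟨y, hy, hy2⟩ := H2_I h3 (two_dvd h3)
  have h2 : HH p 2 / (2 * p) ∈ Zp p := by
    have : HH p 2 / (2 * p) = y / 2 := by
      rw [hy2]
      have := p_ne (p := p)
      field_simp
    rw [this]
    exact mem_div hy (U2 h3)
  have h4 : (1 / 4 : ℚ) ∈ Zp p := mem23 h3 1 2 0 (by norm_num)
  have := add_mem (sub_mem h1 h2) (mul_mem h4 (mul_mem p_mem (HH_mem (p := p) 4)))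
  refine (congrArg (· ∈ Zp p) ?_).mp this
  ring

/-- the four congruences -/
theorem main (h3 : 3 < p) :
    I p 3 (∑ k ∈ Ico 1 p, u k * h2 k / ((1 : ℕ) : ℚ) ^ k -
      (2 / 3 * (HH p 1 / p ^ 2) + 76 / 135 * (p ^ 2 * bernoulli (p - 5)))) ∧
    I p 3 (∑ k ∈ Ico 1 p, u k * h2 k / ((2 : ℕ) : ℚ) ^ k -
      (- (3 / 16) * (HH p 1 / p ^ 2) + 479 / 1280 * (p ^ 2 * bernoulli (p - 5)))) ∧
    I p 3 (∑ k ∈ Ico 1 p, u k * h2 k / ((3 : ℕ) : ℚ) ^ k -
      (- (8 / 9) * (HH p 1 / p ^ 2) + 268 / 1215 * (p ^ 2 * bernoulli (p - 5)))) ∧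
    I p 3 (∑ k ∈ Ico 1 p, u k * h2 k / ((4 : ℕ) : ℚ) ^ k -
      (- (3 / 2) * (HH p 1 / p ^ 2) + 7 / 80 * (p ^ 2 * bernoulli (p - 5)))) := by
  have hB := pH4_bern h3
  refine ⟨?_, ?_, ?_, ?_⟩
  · have := ((val1 h3).add (fin1 h3 (two_dvd h3) (three_dvd h3) (six_dvd h3))).add
      (hB.mulL (x := 19 / 27) (mem23 h3 19 0 3 (by norm_num)))
    exact (congrArg (I p 3) (by ring)).mp this
  · have := ((val2 h3).add (fin2 h3 (two_dvd h3) (four_dvd h3))).add
      (hB.mulL (x := 479 / 1024) (mem23 h3 479 10 0 (by norm_num)))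
    exact (congrArg (I p 3) (by ring)).mp this
  · have := ((val3 h3).add (fin3 h3 (three_dvd h3))).add
      (hB.mulL (x := 67 / 243) (mem23 h3 67 0 5 (by norm_num)))
    exact (congrArg (I p 3) (by ring)).mp this
  · have := ((val4 h3).add (fin4 h3 (two_dvd h3))).add
      (hB.mulL (x := 7 / 64) (mem23 h3 7 6 0 (by norm_num)))
    exact (congrArg (I p 3) (by ring)).mp this

end Pool.Agent.T2H53.HB
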